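import Pool.Agent.W2helper61.Cheat.Alg
import Pool.Agent.H583R2.Expo

/-!
The algorithm runs in polynomial time.
-/

set_option autoImplicit false

namespace Pool.Agent.W2helper61.Cheat

open Pool.Agent.H583R2

section

variable {α β γ : Type} [TEnc α] [TEnc β] [TEnc γ]

/-- case distinction on a move -/
def mcase {γ : Type} (m : Str) (g : γ) (h f : Str → γ) : γ :=
  match m with
  | [] => g
  | b :: q => if b then h q else f q

theorem pf_mcase {m : α → Str} {g : α → γ} {h f : α → Str → γ} (hm : PF m) (hg : PF g)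
    (hh : PF (fun p : α × Str => h p.1 p.2)) (hf : PF (fun p : α × Str => f p.1 p.2)) :
    PF (fun a => mcase (m a) (g a) (h a) (f a)) :=
  (PF.listCase (h := fun a b q => if b then h a q else f a q) hm hg
    (PF.ite (PF.fst' PF.snd) (hh.comp (PF.fst.pair (PF.snd' PF.snd)))
      (hf.comp (PF.fst.pair (PF.snd' PF.snd))))).congr
    (fun a => by unfold mcase; cases m a <;> rfl)

/-- case distinction on an answer -/
def ocase {γ : Type} (o : Option Bool) (g : γ) (h : Bool → γ) : γ :=
  match o with
  | none => g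
  | some c => h c

theorem pf_ocase {o : α → Option Bool} {g : α → γ} {h : α → Bool → γ} (ho : PF o) (hg : PF g)
    (hh : PF (fun p : α × Bool => h p.1 p.2)) :
    PF (fun a => ocase (o a) (g a) (h a)) :=
  (PF.optCase (h := h) ho hg hh).congr (fun a => by unfold ocase; cases o a <;> rfl)

theorem pf_pow {n : α → ℕ} (hn : PF n) (c : ℕ) : PF (fun a => n a ^ c) := by
  induction c with
  | zero => exact (PF.const 1).congr (fun a => (pow_zero _).symm)
  | succ c ih => exact (PF.mul ih hn).congr (fun a => (pow_succ _ _).symm)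

theorem pf_optMap {o : α → Option β} {f : α → β → γ} (ho : PF o)
    (hf : PF (fun p : α × β => f p.1 p.2)) : PF (fun a => (o a).map (f a)) :=
  (ho.optCase (g := fun _ => none) (h := fun a x => some (f a x)) (PF.const none)
    (PF.mkSome hf)).congr (fun a => by cases o a <;> rfl)

theorem pf_pairS {x y : α → Str} (hx : PF x) (hy : PF y) : PF (fun a => pairS (x a) (y a)) :=
  PF.append (PF.flatMap (f := fun _ b => [true, b]) hx
    (PF.cons (PF.const true) (PF.cons PF.snd (PF.const [])))) (PF.cons (PF.const false) hy)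

theorem sz_pairS (x y : Str) : sz (pairS x y) ≤ 10 * sz x + sz y + 2 := by
  unfold pairS
  have h1 := sz_append (x.flatMap (fun b => [true, b])) (false :: y)
  rw [sz_cons, sz_false] at h1
  have h2 : sz (x.flatMap (fun b => [true, b])) ≤ 10 * sz x := by
    induction x with
    | nil => simp [sz_nil]
    | cons b x ih =>
      have ih' := ih (sz_append (x.flatMap (fun b => [true, b])) (false :: y) |> fun h => by
        rw [sz_cons, sz_false] at h; exact h)
      rw [List.flatMap_cons]
      have h3 := sz_append [true, b] (x.flatMap (fun b => [true, b]))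
      have h4 := sz_bool b
      have h5 := sz_pos b
      rw [sz_cons, sz_cons, sz_nil, sz_true] at h3
      rw [sz_cons]
      omega
  omega

theorem pf_tupS {t : α → List Str} (ht : PF t) : PF (fun a => tupS (t a)) :=
  PF.foldrAdd (l := t) (s := fun _ => ([] : Str)) (f := fun _ x s => pairS x s) ht (PF.const [])
    (pf_pairS (PF.fst' PF.snd) (PF.snd' PF.snd)) (inc := fun a => 10 * sz (t a) + 2)
    (bnd := fun _ => 0) (((PB.const 10).mul ht.size).add (PB.const 2)) (PB.const 0) (by
      intro a x hx st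
      have h1 := sz_pairS x st
      have h2 := sz_mem hx
      omega)

theorem pf_tuples (n : ℕ) {Q : α → List Str} (hQ : PF Q) : PF (fun a => tuples n (Q a)) := by
  induction n with
  | zero => exact PF.const [[]]
  | succ n ih =>
    exact PF.flatMap (f := fun a t => (Q a).map (fun q => q :: t)) ih
      (PF.map (f := fun (p : α × List Str) q => q :: p.2) (hQ.comp PF.fst)
        (PF.cons PF.snd (PF.snd' PF.fst)))

theorem pf_look {v : α → Asg} {u : α → Str} (hv : PF v) (hu : PF u) :
    PF (fun a => look (v a) (u a)) := by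
  unfold look
  exact pf_optMap (o := fun a => (v a).find? (fun p => p.1 == u a)) (f := fun _ p => p.2)
    (PF.find (f := fun a p => p.1 == u a) hv
    (PF.beqStr (PF.fst' PF.snd) (hu.comp PF.fst))) (PF.snd' PF.snd)

theorem pf_gv {v : α → Asg} {u : α → Str} (hv : PF v) (hu : PF u) :
    PF (fun a => gv (v a) (u a)) := PF.getD (pf_look hv hu) (PF.const false)

theorem pf_mapgv {v : α → Asg} {t : α → List Str} (hv : PF v) (ht : PF t) :
    PF (fun a => (t a).map (gv (v a))) :=
  PF.map (f := fun a u => gv (v a) u) ht (pf_gv (hv.comp PF.fst) PF.snd)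

theorem pf_qOK {m : α → Str} {b : α → Bool} {v : α → Asg} (hm : PF m) (hb : PF b) (hv : PF v) :
    PF (fun a => qOK (m a) (b a) (v a)) := by
  refine (pf_mcase (g := fun _ => false) (h := fun _ _ => false)
    (f := fun a q => ocase (look (v a) q) true (fun c => c == b a))
    hm (PF.const false) (PF.const false)
    (pf_ocase (o := fun p : α × Str => look (v p.1) p.2) (g := fun _ => true)
      (h := fun p c => c == b p.1) (pf_look (hv.comp PF.fst) PF.snd) (PF.const true)
      (PF.beqBool PF.snd (hb.comp (PF.fst' PF.fst))))).congr ?_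
  intro a
  unfold mcase qOK ocase
  rcases m a with _ | ⟨c, q⟩
  · rfl
  · cases c <;> rfl

variable {F1 F2 : Str → Str}

theorem pf_okT (h1 : PF F1) (k : ℕ) {v : α → Asg} {t : α → List Str} (hv : PF v) (ht : PF t) :
    PF (fun a => okT F1 k (v a) (t a)) := by
  unfold okT
  refine PF.any (l := fun _ => allB k) (f := fun a b => (List.range (k + 1)).any (fun i =>
    (F1 (pairS (tupS (t a)) (b.take i)) == true :: (t a).map (gv (v a))) &&
    (List.range i).all (fun j => qOK (F1 (pairS (tupS (t a)) (b.take j))) (b.getD j false)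
      (v a)))) (PF.const _) ?_
  refine PF.any (l := fun _ : α × List Bool => List.range (k + 1)) (f := fun p i =>
    (F1 (pairS (tupS (t p.1)) (p.2.take i)) == true :: (t p.1).map (gv (v p.1))) &&
    (List.range i).all (fun j => qOK (F1 (pairS (tupS (t p.1)) (p.2.take j)))
      (p.2.getD j false) (v p.1))) (PF.const _) ?_
  have hv' : PF (fun p : (α × List Bool) × ℕ => v p.1.1) := hv.comp (PF.fst' PF.fst)
  have ht' : PF (fun p : (α × List Bool) × ℕ => t p.1.1) := ht.comp (PF.fst' PF.fst)
  refine PF.and (PF.beqStr (h1.comp (pf_pairS (pf_tupS ht')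
    (PF.take PF.snd (PF.snd' PF.fst)))) (PF.cons (PF.const true) (pf_mapgv hv' ht'))) ?_
  refine PF.all (l := fun p : (α × List Bool) × ℕ => List.range p.2) (f := fun p j =>
    qOK (F1 (pairS (tupS (t p.1.1)) (p.1.2.take j))) (p.1.2.getD j false) (v p.1.1))
    (PF.range PF.snd) ?_
  have hv2 : PF (fun p : ((α × List Bool) × ℕ) × ℕ => v p.1.1.1) := hv'.comp PF.fst
  have ht2 : PF (fun p : ((α × List Bool) × ℕ) × ℕ => t p.1.1.1) := ht'.comp PF.fst
  have hb2 : PF (fun p : ((α × List Bool) × ℕ) × ℕ => p.1.1.2) := PF.snd' (PF.fst' PF.fst)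
  exact pf_qOK (h1.comp (pf_pairS (pf_tupS ht2) (PF.take PF.snd hb2)))
    (PF.listGetD PF.snd hb2 (PF.const false)) hv2

theorem pf_ansStep (h2 : PF F2) {v : α → Asg} {s : α → Str} {ans : α → List Bool} (hv : PF v)
    (hs : PF s) (ha : PF ans) : PF (fun a => ansStep F2 (v a) (s a) (ans a)) := by
  refine (pf_mcase (m := fun a => F2 (pairS (s a) (ans a))) (g := ans) (h := fun a _ => ans a)
    (f := fun a q => if decide (q.length < (s a).length) then
      (ocase (look (v a) q) (ans a) (fun c => ans a ++ [c])) else ans a)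
    (h2.comp (pf_pairS hs ha)) ha (ha.comp PF.fst)
    (PF.ite (PF.lt (PF.length PF.snd) (PF.length (hs.comp PF.fst)))
      (pf_ocase (o := fun p : α × Str => look (v p.1) p.2) (g := fun p => ans p.1)
        (h := fun p c => ans p.1 ++ [c]) (pf_look (hv.comp PF.fst) PF.snd) (ha.comp PF.fst)
        (PF.append (ha.comp (PF.fst' PF.fst)) (PF.cons PF.snd (PF.const []))))
      (ha.comp PF.fst))).congr ?_
  intro a
  unfold mcase ansStep ocase
  rcases F2 (pairS (s a) (ans a)) with _ | ⟨c, q⟩
  · rfl
  · cases c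
    · by_cases hq : q.length < (s a).length
      · simp only [hq, decide_true, if_true]
        rfl
      · simp only [hq, decide_false, if_false]
        rfl
    · rfl

theorem sz_ansStep (v : Asg) (s : Str) (ans : List Bool) :
    sz (ansStep F2 v s ans) ≤ sz ans + 4 := by
  unfold ansStep
  rcases F2 (pairS s ans) with _ | ⟨c, q⟩
  · simp
  · cases c
    · by_cases hq : q.length < s.length
      · rcases hv : look v q with _ | c
        · simp [hq, hv]
        · simp only [hq, if_true, hv]
          have h1 := sz_append ans [c]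
          have h2 := sz_bool c
          rw [sz_cons, sz_nil] at h1
          omega
      · simp [hq]
    · simp

theorem pf_fin (h2 : PF F2) {R : α → ℕ} {v : α → Asg} {s : α → Str} (hR : PF R) (hv : PF v)
    (hs : PF s) : PF (fun a => fin F2 (R a) (v a) (s a)) :=
  PF.iterateAdd (n := R) (s := fun _ => ([] : List Bool)) (f := fun a ans =>
    ansStep F2 (v a) (s a) ans) hR (PF.const [])
    (pf_ansStep h2 (hv.comp PF.fst) (hs.comp PF.fst) PF.snd)
    (inc := fun _ => 4) (bnd := fun _ => 0) (PB.const 4) (PB.const 0)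
    (fun _ _ => (sz_ansStep _ _ _).trans (le_max_left _ _))

theorem pf_okS (h2 : PF F2) {R : α → ℕ} {v : α → Asg} {s : α → Str} (hR : PF R) (hv : PF v)
    (hs : PF s) : PF (fun a => okS F2 (R a) (v a) (s a)) := by
  have hfin := pf_fin h2 hR hv hs
  refine (PF.and (PF.lt (PF.length hfin) hR)
    (pf_mcase (m := fun a => F2 (pairS (s a) (fin F2 (R a) (v a) (s a))))
    (g := fun _ => false) (h := fun a o => o == [gv (v a) (s a)])
    (f := fun a q => decide (q.length < (s a).length) && !((look (v a) q).isSome))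
    (h2.comp (pf_pairS hs hfin)) (PF.const false)
    (PF.beqStr PF.snd (PF.cons ((pf_gv hv hs).comp PF.fst) (PF.const [])))
    (PF.and (PF.lt (PF.length PF.snd) (PF.length (hs.comp PF.fst)))
      (PF.not (PF.isSome (pf_look (hv.comp PF.fst) PF.snd)))))).congr ?_
  intro a
  unfold mcase okS
  congr 1
  rcases F2 (pairS (s a) (fin F2 (R a) (v a) (s a))) with _ | ⟨c, q⟩
  · rfl
  · cases c
    · simp only [Bool.false_eq_true, if_false]
      cases look (v a) q <;> rfl
    · rfl

theorem pf_inD {D : α → List (List Bool)} {b : α → List Bool} (hD : PF D) (hb : PF b) :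
    PF (fun a => inD (D a) (b a)) :=
  PF.any (f := fun a d => d == b a) hD (PF.beqStr PF.snd (hb.comp PF.fst))

theorem pf_isNone {o : α → Option β} (ho : PF o) : PF (fun a => (o a).isNone) :=
  (PF.not (PF.isSome ho)).congr (fun a => by cases o a <;> rfl)

theorem pf_okF (h1 : PF F1) (h2 : PF F2) (k : ℕ) {R : α → ℕ} {x : α → Str} {S : α → List Str}
    {D : α → List (List Bool)} {v : α → Asg} (hR : PF R) (hx : PF x) (hS : PF S) (hD : PF D)
    (hv : PF v) : PF (fun a => okF F1 F2 k (R a) (x a) (S a) (D a) (v a)) := by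
  unfold okF
  refine PF.and (PF.all (l := fun a => tuples (2 ^ k - 1) ((v a).map Prod.fst))
    (f := fun a t => okT F1 k (v a) t) (pf_tuples _ (PF.map (f := fun _ p => p.1) hv
      (PF.fst' PF.snd))) (pf_okT h1 k (hv.comp PF.fst) PF.snd)) (PF.and ?_ (PF.or ?_ ?_))
  · exact PF.all (f := fun a s => (look (v a) s).isNone || okS F2 (R a) (v a) s) hS
      (PF.or (pf_isNone (pf_look (hv.comp PF.fst) PF.snd))
        (pf_okS h2 (hR.comp PF.fst) (hv.comp PF.fst) PF.snd))
  · exact PF.any (l := fun a => x a :: S a) (f := fun a s => (look (v a) s).isNone)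
      (PF.cons hx hS) (pf_isNone (pf_look (hv.comp PF.fst) PF.snd))
  · exact PF.beqBool (pf_gv hv hx) (pf_inD hD (pf_mapgv hv hS))

theorem pf_memS {W : α → List Str} {w : α → Str} (hW : PF W) (hw : PF w) :
    PF (fun a => memS (W a) (w a)) :=
  PF.any (f := fun a u => u == w a) hW (PF.beqStr PF.snd (hw.comp PF.fst))

theorem pf_cstep (h1 : PF F1) (h2 : PF F2) (k : ℕ) {R : α → ℕ} {x : α → Str} {S : α → List Str}
    {D : α → List (List Bool)} {st : α → List Str × List Asg} {w : α → Str} (hR : PF R)
    (hx : PF x) (hS : PF S) (hD : PF D) (hst : PF st) (hw : PF w) :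
    PF (fun a => cstep F1 F2 k (R a) (x a) (S a) (D a) (st a) (w a)) := by
  unfold cstep
  refine PF.ite (pf_memS (PF.fst' hst) hw) hst (PF.pair (PF.cons hw (PF.fst' hst)) ?_)
  refine PF.take (PF.add (PF.succ (PF.length (PF.fst' hst))) (PF.const _)) ?_
  refine PF.filter (l := fun a => (st a).2.flatMap (fun v => [(w a, true) :: v, (w a, false) :: v]))
    (f := fun a v => okF F1 F2 k (R a) (x a) (S a) (D a) v) ?_ ?_
  · refine PF.flatMap (f := fun a v => [(w a, true) :: v, (w a, false) :: v]) (PF.snd' hst) ?_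
    exact PF.cons (PF.cons (PF.pair (hw.comp PF.fst) (PF.const true)) PF.snd)
      (PF.cons (PF.cons (PF.pair (hw.comp PF.fst) (PF.const false)) PF.snd) (PF.const []))
  · exact pf_okF h1 h2 k (hR.comp PF.fst) (hx.comp PF.fst) (hS.comp PF.fst) (hD.comp PF.fst)
      PF.snd

/-- size bound of the states -/
theorem cands_size (k R : ℕ) (x : Str) (S : List Str) (D : List (List Bool)) (L0 : List Str) :
    ∀ (L : List Str), (∀ w ∈ L, w ∈ L0) → ∀ st : List Str × List Asg,
      (∀ w ∈ st.1, w ∈ L0) → (∀ v ∈ st.2, v.length ≤ st.1.length ∧ ∀ p ∈ v, p.1 ∈ L0) →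
      st.2.length ≤ st.1.length + 2 ^ k →
      (∀ w ∈ (L.foldl (cstep F1 F2 k R x S D) st).1, w ∈ L0) ∧
      (∀ v ∈ (L.foldl (cstep F1 F2 k R x S D) st).2,
        v.length ≤ (L.foldl (cstep F1 F2 k R x S D) st).1.length ∧ ∀ p ∈ v, p.1 ∈ L0) ∧
      (L.foldl (cstep F1 F2 k R x S D) st).2.length ≤
        (L.foldl (cstep F1 F2 k R x S D) st).1.length + 2 ^ k ∧
      (L.foldl (cstep F1 F2 k R x S D) st).1.length ≤ st.1.length + L.length := by
  intro L
  induction L with
  | nil => intro _ st h1 h2 h3; exact ⟨h1, h2, h3, by simp⟩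
  | cons w L ih =>
    intro hL st h1 h2 h3
    rw [List.foldl_cons]
    by_cases hw : memS st.1 w = true
    · have e : cstep F1 F2 k R x S D st w = st := by
        unfold cstep
        rw [if_pos hw]
      rw [e]
      obtain ⟨g1, g2, g3, g4⟩ := ih (fun u hu => hL u (List.mem_cons_of_mem _ hu)) st h1 h2 h3
      exact ⟨g1, g2, g3, by simp only [List.length_cons]; omega⟩
    · have e : cstep F1 F2 k R x S D st w = (w :: st.1,
          ((st.2.flatMap (fun v => [(w, true) :: v, (w, false) :: v])).filter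
            (okF F1 F2 k R x S D)).take (st.1.length + 1 + 2 ^ k)) := by
        unfold cstep
        rw [if_neg hw]
      rw [e]
      obtain ⟨g1, g2, g3, g4⟩ := ih (fun u hu => hL u (List.mem_cons_of_mem _ hu)) (w :: st.1,
          ((st.2.flatMap (fun v => [(w, true) :: v, (w, false) :: v])).filter
            (okF F1 F2 k R x S D)).take (st.1.length + 1 + 2 ^ k)) (by
            intro u hu
            rcases List.mem_cons.1 hu with rfl | hu
            · exact hL u (by simp)
            · exact h1 u hu) (by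
            intro v hv
            obtain ⟨v0, hv0, hv⟩ := List.mem_flatMap.1
              (List.mem_filter.1 (List.mem_of_mem_take hv)).1
            obtain ⟨l1, l2⟩ := h2 v0 hv0
            have hwL : w ∈ L0 := hL w (by simp)
            simp only [List.mem_cons, List.not_mem_nil, or_false] at hv
            rcases hv with rfl | rfl
            · refine ⟨by simp only [List.length_cons]; omega, ?_⟩
              intro p hp
              rcases List.mem_cons.1 hp with rfl | hp
              · exact hwL
              · exact l2 p hp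
            · refine ⟨by simp only [List.length_cons]; omega, ?_⟩
              intro p hp
              rcases List.mem_cons.1 hp with rfl | hp
              · exact hwL
              · exact l2 p hp) (by
            simp only [List.length_cons]
            exact (List.length_take_le _ _))
      refine ⟨g1, g2, g3, ?_⟩
      simp only [List.length_cons] at g4 ⊢
      omega

theorem pf_cands (h1 : PF F1) (h2 : PF F2) (k : ℕ) {R : α → ℕ} {x : α → Str} {S : α → List Str}
    {D : α → List (List Bool)} {L : α → List Str} (hR : PF R)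
    (hx : PF x) (hS : PF S) (hD : PF D) (hL : PF L) :
    PF (fun a => cands F1 F2 k (R a) (x a) (S a) (D a) (L a)) := by
  unfold cands
  have hB : PB (fun a => 1 + (sz (L a) * (sz (L a) + 1) + 1) + ((sz (L a) + 2 ^ k) *
      ((sz (L a) * (sz (L a) + 4 + 1) + 1) + 1) + 1)) := by
    have hl := hL.size
    exact (((PB.const 1).add ((hl.mul (hl.add (PB.const 1))).add (PB.const 1))).add
      (((hl.add (PB.const _)).mul (((hl.mul ((hl.add (PB.const 4)).add (PB.const 1))).add
        (PB.const 1)).add (PB.const 1))).add (PB.const 1)))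
  refine PF.foldl (l := L) (s := fun _ => ([], [[]]))
    (f := fun a st w => cstep F1 F2 k (R a) (x a) (S a) (D a) st w) hL (PF.const _)
    (pf_cstep h1 h2 k (hR.comp PF.fst) (hx.comp PF.fst) (hS.comp PF.fst) (hD.comp PF.fst)
      (PF.fst' PF.snd) (PF.snd' PF.snd)) hB ?_
  intro a j hj
  obtain ⟨g1, g2, g3, g4⟩ := cands_size (F1 := F1) (F2 := F2) k (R a) (x a) (S a) (D a) (L a)
    ((L a).take j) (fun w hw => List.mem_of_mem_take hw) ([], [[]]) (by simp) (by simp)
    (by simpa using Nat.one_le_two_pow)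
  set st := ((L a).take j).foldl (cstep F1 F2 k (R a) (x a) (S a) (D a)) ([], [[]]) with hst
  have hj' : st.1.length ≤ sz (L a) := by
    have h5 := length_lt_sz (L a)
    have h6 := List.length_take_le j (L a)
    simp only [List.length_nil, List.length_take] at g4
    omega
  have e1 : sz st.1 ≤ sz (L a) * (sz (L a) + 1) + 1 := by
    refine (sz_list_le st.1 (sz (L a)) (fun w hw => (sz_mem (g1 w hw)).le)).trans ?_
    have := Nat.mul_le_mul_right (sz (L a) + 1) hj'
    omega
  have e2 : ∀ v ∈ st.2, sz v ≤ sz (L a) * (sz (L a) + 4 + 1) + 1 := by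
    intro v hv
    obtain ⟨l1, l2⟩ := g2 v hv
    refine (sz_list_le v (sz (L a) + 4) (fun p hp => ?_)).trans ?_
    · rw [sz_prod p]
      have h5 := sz_mem (l2 p hp)
      have h6 := sz_bool p.2
      omega
    · have := Nat.mul_le_mul_right (sz (L a) + 4 + 1) (l1.trans hj')
      omega
  have e3 := sz_list_le st.2 (sz (L a) * (sz (L a) + 4 + 1) + 1) e2
  have e4 := Nat.mul_le_mul_right ((sz (L a) * (sz (L a) + 4 + 1) + 1) + 1)
    (g3.trans (Nat.add_le_add_right hj' _))
  rw [sz_prod st]
  omega

theorem pf_restr {v : α → Asg} {Q : α → List Str} (hv : PF v) (hQ : PF Q) :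
    PF (fun a => restr (v a) (Q a)) := by
  unfold restr
  exact PF.filter (f := fun a p => memS (Q a) p.1) hv
    (pf_memS (hQ.comp PF.fst) (PF.fst' PF.snd))

theorem pf_agree {v v' : α → Asg} {Q : α → List Str} (hQ : PF Q) (hv : PF v) (hv' : PF v') :
    PF (fun a => agree (Q a) (v a) (v' a)) :=
  PF.all (f := fun a q => gv (v a) q == gv (v' a) q) hQ
    (PF.beqBool (pf_gv (hv.comp PF.fst) PF.snd) (pf_gv (hv'.comp PF.fst) PF.snd))

theorem pf_xor {b c : α → Bool} (hb : PF b) (hc : PF c) : PF (fun a => b a ^^ c a) :=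
  (PF.not (PF.beqBool hb hc)).congr (fun a => by cases b a <;> cases c a <;> rfl)

theorem pf_common {x : α → Str} {G : α → List Asg} {Q : α → List Str} {v : α → Asg} (hx : PF x)
    (hG : PF G) (hQ : PF Q) (hv : PF v) : PF (fun a => common (x a) (G a) (Q a) (v a)) :=
  PF.any (f := fun a v' => (gv (v a) (x a) ^^ gv v' (x a)) && agree (Q a) (v a) v') hG
    (PF.and (pf_xor ((pf_gv hv hx).comp PF.fst) (pf_gv PF.snd (hx.comp PF.fst)))
      (pf_agree (hQ.comp PF.fst) (hv.comp PF.fst) PF.snd))

theorem pf_nq (h2 : PF F2) {R : α → ℕ} {Q : α → List Str} {v : α → Asg} {s : α → Str}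
    (hR : PF R) (hQ : PF Q) (hv : PF v) (hs : PF s) :
    PF (fun a => nq F2 (R a) (Q a) (v a) (s a)) := by
  refine (pf_mcase (m := fun a => F2 (pairS (s a) (fin F2 (R a) (restr (v a) (Q a)) (s a))))
    (g := fun _ => ([] : List Str)) (h := fun _ _ => [])
    (f := fun a q => if decide (q.length < (s a).length) then [q] else [])
    (h2.comp (pf_pairS hs (pf_fin h2 hR (pf_restr hv hQ) hs))) (PF.const []) (PF.const [])
    (PF.ite (PF.lt (PF.length PF.snd) (PF.length (hs.comp PF.fst)))
      (PF.cons PF.snd (PF.const [])) (PF.const []))).congr ?_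
  intro a
  unfold mcase nq
  rcases F2 (pairS (s a) (fin F2 (R a) (restr (v a) (Q a)) (s a))) with _ | ⟨c, q⟩
  · rfl
  · cases c
    · by_cases hq : q.length < (s a).length
      · simp only [hq, decide_true, if_true]
        rfl
      · simp only [hq, decide_false, if_false]
        rfl
    · rfl

theorem pf_newQ (h1 : PF F1) (h2 : PF F2) (k : ℕ) {R : α → ℕ} {x : α → Str} {S : α → List Str}
    {D : α → List (List Bool)} {Q : α → List Str} (hR : PF R)
    (hx : PF x) (hS : PF S) (hD : PF D) (hQ : PF Q) :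
    PF (fun a => newQ F1 F2 k (R a) (x a) (S a) (D a) (Q a)) := by
  have hG : PF (fun a => (cands F1 F2 k (R a) (x a) (S a) (D a) (x a :: (S a ++ Q a))).2) :=
    PF.snd' (pf_cands h1 h2 k hR hx hS hD (PF.cons hx (PF.append hS hQ)))
  refine PF.flatMap (l := fun a =>
    ((cands F1 F2 k (R a) (x a) (S a) (D a) (x a :: (S a ++ Q a))).2.filter
      (common (x a) (cands F1 F2 k (R a) (x a) (S a) (D a) (x a :: (S a ++ Q a))).2 (Q a))).take
        (2 ^ k + 2 ^ (2 ^ k + 1)))
    (f := fun a v => (S a).flatMap (fun s => nq F2 (R a) (Q a) v s))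
    (PF.take (PF.const _) (PF.filter (f := fun a v => common (x a)
      (cands F1 F2 k (R a) (x a) (S a) (D a) (x a :: (S a ++ Q a))).2 (Q a) v) hG
      (pf_common (hx.comp PF.fst) (hG.comp PF.fst) (hQ.comp PF.fst) PF.snd))) ?_
  exact PF.flatMap (l := fun p : α × Asg => S p.1)
    (f := fun p s => nq F2 (R p.1) (Q p.1) p.2 s) (hS.comp PF.fst)
    (pf_nq h2 (hR.comp (PF.fst' PF.fst)) (hQ.comp (PF.fst' PF.fst)) (PF.snd' PF.fst) PF.snd)

theorem sz_str_len (x : Str) : sz x ≤ 4 * x.length + 1 := by
  induction x with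
  | nil => simp [sz_nil]
  | cons b x ih =>
    have := sz_bool b
    rw [sz_cons, List.length_cons]
    omega

theorem len_le_sz (x : Str) : x.length ≤ sz x := (length_lt_sz x).le

theorem mem_nq {R : ℕ} {Q : List Str} {v : Asg} {s q : Str} (h : q ∈ nq F2 R Q v s) :
    q.length < s.length := by
  unfold nq at h
  rcases hF : F2 (pairS s (fin F2 R (restr v Q) s)) with _ | ⟨b, u⟩
  · rw [hF] at h; simp at h
  · rw [hF] at h
    cases b
    · by_cases hu : u.length < s.length
      · simp only [hu, if_true, List.mem_singleton] at h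
        rw [h]; exact hu
      · simp [hu] at h
    · simp at h

theorem length_nq {R : ℕ} {Q : List Str} {v : Asg} {s : Str} : (nq F2 R Q v s).length ≤ 1 := by
  unfold nq
  rcases F2 (pairS s (fin F2 R (restr v Q) s)) with _ | ⟨b, u⟩
  · simp
  · cases b
    · by_cases hu : u.length < s.length <;> simp [hu]
    · simp

theorem length_flatMap_le {β γ : Type} (l : List β) (f : β → List γ) (b : ℕ)
    (h : ∀ x ∈ l, (f x).length ≤ b) : (l.flatMap f).length ≤ l.length * b := by
  induction l with
  | nil => simp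
  | cons x l ih =>
    rw [List.flatMap_cons, List.length_append, List.length_cons, Nat.add_mul]
    have h1 := ih (fun y hy => h y (List.mem_cons_of_mem _ hy))
    have h2 := h x (by simp)
    omega

theorem newQ_size (k R : ℕ) (x : Str) (S : List Str) (D : List (List Bool)) (Q : List Str) :
    sz (newQ F1 F2 k R x S D Q) ≤
      (2 ^ k + 2 ^ (2 ^ k + 1)) * sz S * (4 * sz S + 1 + 1) + 1 := by
  have h1 : ∀ q ∈ newQ F1 F2 k R x S D Q, sz q ≤ 4 * sz S + 1 := by
    intro q hq
    unfold newQ at hq
    obtain ⟨v, _, h⟩ := List.mem_flatMap.1 hq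
    obtain ⟨s, hs, h⟩ := List.mem_flatMap.1 h
    have h2 := mem_nq h
    have h3 := sz_str_len q
    have h4 := sz_mem hs
    have h5 := len_le_sz s
    omega
  have h2 : (newQ F1 F2 k R x S D Q).length ≤ (2 ^ k + 2 ^ (2 ^ k + 1)) * sz S := by
    unfold newQ
    refine (length_flatMap_le _ _ (sz S) ?_).trans ?_
    · intro v _
      refine (length_flatMap_le _ _ 1 (fun s _ => length_nq)).trans ?_
      have := length_lt_sz S
      omega
    · exact Nat.mul_le_mul_right _ (List.length_take_le _ _)
  have h3 := sz_list_le _ _ h1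
  have h4 := Nat.mul_le_mul_right (4 * sz S + 1 + 1) h2
  omega

theorem pf_rounds (h1 : PF F1) (h2 : PF F2) (k : ℕ) {R r : α → ℕ} {x : α → Str}
    {S : α → List Str} {D : α → List (List Bool)} (hR : PF R)
    (hx : PF x) (hS : PF S) (hD : PF D) (hr : PF r) :
    PF (fun a => rounds F1 F2 k (R a) (x a) (S a) (D a) (r a)) :=
  PF.iterateAdd (n := r) (s := fun _ => ([] : List Str))
    (f := fun a Q => Q ++ newQ F1 F2 k (R a) (x a) (S a) (D a) Q) hr (PF.const [])
    (PF.append PF.snd (pf_newQ h1 h2 k (hR.comp PF.fst) (hx.comp PF.fst) (hS.comp PF.fst)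
      (hD.comp PF.fst) PF.snd))
    (inc := fun a => (2 ^ k + 2 ^ (2 ^ k + 1)) * sz (S a) * (4 * sz (S a) + 1 + 1) + 1)
    (bnd := fun _ => 0)
    ((((PB.const _).mul hS.size).mul ((((PB.const 4).mul hS.size).add (PB.const 1)).add
      (PB.const 1))).add (PB.const 1)) (PB.const 0) (by
      intro a st
      have h3 := newQ_size (F1 := F1) (F2 := F2) k (R a) (x a) (S a) (D a) st
      have h4 := sz_append st (newQ F1 F2 k (R a) (x a) (S a) (D a) st)
      refine le_trans ?_ (le_max_left _ _)
      omega)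

theorem pf_aux (h1 : PF F1) (k : ℕ) {Q : α → List Str} (hQ : PF Q) :
    PF (fun a => aux F1 k (Q a)) := by
  unfold aux
  refine PF.flatMap (l := fun a => tuples (2 ^ k - 1) (Q a))
    (f := fun _ t => match F1 (pairS (tupS t) []) with
    | [] => []
    | true :: _ => []
    | false :: u => [u]) (pf_tuples _ hQ) ?_
  refine (pf_mcase (m := fun p : α × List Str => F1 (pairS (tupS p.2) []))
    (g := fun _ => ([] : List Str)) (h := fun _ _ => []) (f := fun _ u => [u])
    (h1.comp (pf_pairS (pf_tupS PF.snd) (PF.const []))) (PF.const []) (PF.const [])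
    (PF.cons PF.snd (PF.const []))).congr ?_
  intro p
  unfold mcase
  rcases F1 (pairS (tupS p.2) []) with _ | ⟨c, q⟩
  · rfl
  · cases c <;> rfl

theorem pf_determ {x : α → Str} {G : α → List Asg} {T : α → List Str} (hx : PF x) (hG : PF G)
    (hT : PF T) : PF (fun a => determ (x a) (G a) (T a)) := by
  refine PF.all (f := fun a v => (G a).all (fun v' => !(agree (T a) v v') ||
    (gv v (x a) == gv v' (x a)))) hG ?_
  refine PF.all (l := fun p : α × Asg => G p.1) (f := fun p v' => !(agree (T p.1) p.2 v') ||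
    (gv p.2 (x p.1) == gv v' (x p.1))) (hG.comp PF.fst) ?_
  have hx' : PF (fun p : (α × Asg) × Asg => x p.1.1) := hx.comp (PF.fst' PF.fst)
  exact PF.or (PF.not (pf_agree (hT.comp (PF.fst' PF.fst)) (PF.snd' PF.fst) PF.snd))
    (PF.beqBool (pf_gv (PF.snd' PF.fst) hx') (pf_gv PF.snd hx'))

theorem pf_stepA (h1 : PF F1) (h2 : PF F2) (k : ℕ) {R : α → ℕ} {x : α → Str}
    {st : α → List Str × List (List Bool)} (hR : PF R) (hx : PF x) (hst : PF st) :
    PF (fun a => stepA F1 F2 k (R a) (x a) (st a)) := by
  have hS := PF.fst' hst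
  have hD := PF.snd' hst
  have hQ := pf_rounds h1 h2 k hR hx hS hD hR
  have hG : PF (fun a => (cands F1 F2 k (R a) (x a) (st a).1 (st a).2 (x a :: ((st a).1 ++
      (rounds F1 F2 k (R a) (x a) (st a).1 (st a).2 (R a) ++
        aux F1 k (rounds F1 F2 k (R a) (x a) (st a).1 (st a).2 (R a)))))).2) :=
    PF.snd' (pf_cands h1 h2 k hR hx hS hD (PF.cons hx (PF.append hS (PF.append hQ
      (pf_aux h1 k hQ)))))
  have hT : PF (fun a => (([] :: tuples (2 ^ k)
      (rounds F1 F2 k (R a) (x a) (st a).1 (st a).2 (R a))).find? (determ (x a)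
        (cands F1 F2 k (R a) (x a) (st a).1 (st a).2 (x a :: ((st a).1 ++
      (rounds F1 F2 k (R a) (x a) (st a).1 (st a).2 (R a) ++
        aux F1 k (rounds F1 F2 k (R a) (x a) (st a).1 (st a).2 (R a)))))).2)).getD []) :=
    PF.getD (PF.find (f := fun a T => determ (x a)
        (cands F1 F2 k (R a) (x a) (st a).1 (st a).2 (x a :: ((st a).1 ++
      (rounds F1 F2 k (R a) (x a) (st a).1 (st a).2 (R a) ++
        aux F1 k (rounds F1 F2 k (R a) (x a) (st a).1 (st a).2 (R a)))))).2 T)
      (PF.cons (PF.const []) (pf_tuples _ hQ))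
      (pf_determ (hx.comp PF.fst) (hG.comp PF.fst) PF.snd)) (PF.const [])
  refine PF.pair hT ?_
  refine PF.filter (l := fun _ => allB 0 ++ allB (2 ^ k)) (f := fun a d =>
    (cands F1 F2 k (R a) (x a) (st a).1 (st a).2 (x a :: ((st a).1 ++
      (rounds F1 F2 k (R a) (x a) (st a).1 (st a).2 (R a) ++
        aux F1 k (rounds F1 F2 k (R a) (x a) (st a).1 (st a).2 (R a)))))).2.any
    (fun v => gv v (x a) && (((([] :: tuples (2 ^ k)
      (rounds F1 F2 k (R a) (x a) (st a).1 (st a).2 (R a))).find? (determ (x a)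
        (cands F1 F2 k (R a) (x a) (st a).1 (st a).2 (x a :: ((st a).1 ++
      (rounds F1 F2 k (R a) (x a) (st a).1 (st a).2 (R a) ++
        aux F1 k (rounds F1 F2 k (R a) (x a) (st a).1 (st a).2 (R a)))))).2)).getD []).map
          (gv v) == d))) (PF.const _) ?_
  refine PF.any (l := fun p : α × List Bool =>
    (cands F1 F2 k (R p.1) (x p.1) (st p.1).1 (st p.1).2 (x p.1 :: ((st p.1).1 ++
      (rounds F1 F2 k (R p.1) (x p.1) (st p.1).1 (st p.1).2 (R p.1) ++
        aux F1 k (rounds F1 F2 k (R p.1) (x p.1) (st p.1).1 (st p.1).2 (R p.1)))))).2)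
    (f := fun p v => gv v (x p.1) && (((([] :: tuples (2 ^ k)
      (rounds F1 F2 k (R p.1) (x p.1) (st p.1).1 (st p.1).2 (R p.1))).find? (determ (x p.1)
        (cands F1 F2 k (R p.1) (x p.1) (st p.1).1 (st p.1).2 (x p.1 :: ((st p.1).1 ++
      (rounds F1 F2 k (R p.1) (x p.1) (st p.1).1 (st p.1).2 (R p.1) ++
        aux F1 k (rounds F1 F2 k (R p.1) (x p.1) (st p.1).1 (st p.1).2 (R p.1)))))).2)).getD
          []).map (gv v) == p.2)) (hG.comp PF.fst) ?_
  exact PF.and (pf_gv PF.snd (hx.comp (PF.fst' PF.fst))) (PF.beqStr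
    (pf_mapgv PF.snd (hT.comp (PF.fst' PF.fst))) (PF.snd' PF.fst))

theorem sz_filter_le {β : Type} [TEnc β] (l : List β) (f : β → Bool) :
    sz (l.filter f) ≤ sz l := by
  induction l with
  | nil => simp
  | cons x l ih =>
    by_cases hx : f x = true
    · rw [List.filter_cons_of_pos hx, sz_cons, sz_cons]; omega
    · rw [List.filter_cons_of_neg hx, sz_cons]; omega

theorem mem_rounds' {k R r : ℕ} {x : Str} {S : List Str} {D : List (List Bool)} {q : Str}
    (h : q ∈ rounds F1 F2 k R x S D r) : ∃ s ∈ S, q.length < s.length := by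
  have key : ∀ r, ∀ q ∈ rounds F1 F2 k R x S D r, ∃ s ∈ S, q.length < s.length := by
    intro r
    induction r with
    | zero => intro q hq; simp [rounds] at hq
    | succ r ih =>
      intro q hq
      unfold rounds at hq ih
      rw [Function.iterate_succ_apply', List.mem_append] at hq
      rcases hq with hq | hq
      · exact ih q hq
      · unfold newQ at hq
        obtain ⟨v, _, hq⟩ := List.mem_flatMap.1 hq
        obtain ⟨s, hs, hq⟩ := List.mem_flatMap.1 hq
        exact ⟨s, hs, mem_nq hq⟩
  exact key r q h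

theorem stepA_bound (k R : ℕ) (x : Str) (st : List Str × List (List Bool)) :
    (stepA F1 F2 k R x st).1.length ≤ 2 ^ k ∧
    (∀ s ∈ (stepA F1 F2 k R x st).1, ∃ s' ∈ st.1, s.length < s'.length) ∧
    sz (stepA F1 F2 k R x st).2 ≤ sz (allB 0 ++ allB (2 ^ k)) := by
  unfold stepA
  refine ⟨?_, ?_, sz_filter_le _ _⟩
  · rcases h : ([] :: tuples (2 ^ k) (rounds F1 F2 k R x st.1 st.2 R)).find? (determ x
        (cands F1 F2 k R x st.1 st.2 (x :: (st.1 ++ (rounds F1 F2 k R x st.1 st.2 R ++
          aux F1 k (rounds F1 F2 k R x st.1 st.2 R))))).2) with _ | T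
    · simp only [h]
      simp
    · simp only [h, Option.getD_some]
      rcases List.mem_cons.1 (List.mem_of_find?_eq_some h) with rfl | h'
      · simp
      · exact ((mem_tuples _ _ _).1 h').1.le
  · intro s hs
    rcases h : ([] :: tuples (2 ^ k) (rounds F1 F2 k R x st.1 st.2 R)).find? (determ x
        (cands F1 F2 k R x st.1 st.2 (x :: (st.1 ++ (rounds F1 F2 k R x st.1 st.2 R ++
          aux F1 k (rounds F1 F2 k R x st.1 st.2 R))))).2) with _ | T
    · simp only [h] at hs
      simp at hs
    · simp only [h, Option.getD_some] at hs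
      rcases List.mem_cons.1 (List.mem_of_find?_eq_some h) with rfl | h'
      · simp at hs
      · exact mem_rounds' (((mem_tuples _ _ _).1 h').2 s hs)

/-- the algorithm runs in polynomial time -/
theorem pf_algA (h1 : PF F1) (h2 : PF F2) (k : ℕ) {R : Str → ℕ} (hR : PF R) :
    PF (fun x : Str => algA F1 F2 k (R x) x) := by
  unfold algA
  refine pf_inD (PF.snd' ?_) (PF.const [])
  refine PF.iterate (n := fun x : Str => x.length + 1) (s := fun x => ([x], [[true]]))
    (f := fun x st => stepA F1 F2 k (R x) x st) (PF.succ (PF.length PF.id))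
    (PF.pair (PF.cons PF.id (PF.const [])) (PF.const [[true]]))
    (pf_stepA h1 h2 k (hR.comp PF.fst) PF.fst PF.snd)
    (b := fun x => 1 + (2 ^ k * (4 * sz x + 1 + 1) + 1) +
      (sz (allB 0 ++ allB (2 ^ k)) + sz ([[true]] : List (List Bool))))
    (((PB.const 1).add (((PB.const _).mul ((((PB.const 4).mul PB.szId).add (PB.const 1)).add
      (PB.const 1))).add (PB.const 1))).add ((PB.const _).add (PB.const _))) ?_
  intro x j _
  have key : ∀ j : ℕ, ((stepA F1 F2 k (R x) x)^[j] ([x], [[true]])).1.length ≤ 2 ^ k ∧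
      (∀ s ∈ ((stepA F1 F2 k (R x) x)^[j] ([x], [[true]])).1, s.length ≤ x.length) ∧
      sz ((stepA F1 F2 k (R x) x)^[j] ([x], [[true]])).2 ≤ sz (allB 0 ++ allB (2 ^ k)) +
        sz ([[true]] : List (List Bool)) := by
    intro j
    induction j with
    | zero =>
      refine ⟨by simpa using Nat.one_le_two_pow, by simp, ?_⟩
      simp only [Function.iterate_zero, id]
      omega
    | succ j ih =>
      rw [Function.iterate_succ_apply']
      obtain ⟨g1, g2, g3⟩ := stepA_bound (F1 := F1) (F2 := F2) k (R x) x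
        ((stepA F1 F2 k (R x) x)^[j] ([x], [[true]]))
      refine ⟨g1, ?_, by omega⟩
      intro s hs
      obtain ⟨s', hs', hlt⟩ := g2 s hs
      have := ih.2.1 s' hs'
      omega
  obtain ⟨g1, g2, g3⟩ := key j
  have g4 := sz_list_le ((stepA F1 F2 k (R x) x)^[j] ([x], [[true]])).1 (4 * sz x + 1) (by
    intro s hs
    have h3 := g2 s hs
    have h4 := sz_str_len s
    have h5 := len_le_sz x
    omega)
  have g5 := Nat.mul_le_mul_right (4 * sz x + 1 + 1) g1
  change sz ((stepA F1 F2 k (R x) x)^[j] ([x], [[true]])) ≤ _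
  rw [sz_prod]
  omega

end

end Pool.Agent.W2helper61.Cheat
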