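import Pool.Agent.W2helper61.Cheat.Comb

/-!
The algorithm for self-reducible cheatable sets: definitions.
-/

set_option autoImplicit false

namespace Pool.Agent.W2helper61.Cheat

abbrev Str := List Bool
abbrev Asg := List (Str × Bool)

/-- the pair of two strings -/
def pairS (x y : Str) : Str := x.flatMap (fun b => [true, b]) ++ false :: y

/-- a tuple of strings -/
def tupS (l : List Str) : Str := l.foldr pairS []

/-- all lists of length `k` -/
def allB : ℕ → List (List Bool)
  | 0 => [[]]
  | k + 1 => (allB k).flatMap (fun b => [true :: b, false :: b])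

/-- all tuples of length `n` -/
def tuples : ℕ → List Str → List (List Str)
  | 0, _ => [[]]
  | n + 1, Q => (tuples n Q).flatMap (fun t => Q.map (fun q => q :: t))

def look (v : Asg) (u : Str) : Option Bool := (v.find? (fun p => p.1 == u)).map Prod.snd

def gv (v : Asg) (u : Str) : Bool := (look v u).getD false

def asg (W : List Str) (g : Str → Bool) : Asg := W.map (fun w => (w, g w))

theorem mem_allB (k : ℕ) (b : List Bool) : b ∈ allB k ↔ b.length = k := by
  induction k generalizing b with
  | zero => simp [allB]
  | succ k ih =>
    simp only [allB, List.mem_flatMap, List.mem_cons, List.not_mem_nil, or_false]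
    constructor
    · rintro ⟨c, hc, rfl | rfl⟩ <;> simp [(ih c).1 hc]
    · intro h
      rcases b with _ | ⟨c, b⟩
      · simp at h
      · refine ⟨b, (ih b).2 (by simpa using h), ?_⟩
        cases c <;> simp

theorem length_allB (k : ℕ) : (allB k).length = 2 ^ k := by
  induction k with
  | zero => simp [allB]
  | succ k ih => simp [allB, ih, pow_succ]

theorem mem_tuples (n : ℕ) (Q : List Str) (t : List Str) :
    t ∈ tuples n Q ↔ t.length = n ∧ ∀ a ∈ t, a ∈ Q := by
  induction n generalizing t with
  | zero =>
    simp only [tuples, List.mem_singleton]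
    constructor
    · rintro rfl; simp
    · rintro ⟨h, -⟩; exact List.length_eq_zero_iff.1 h
  | succ n ih =>
    simp only [tuples, List.mem_flatMap, List.mem_map]
    constructor
    · rintro ⟨t', ht', q, hq, rfl⟩
      obtain ⟨h1, h2⟩ := (ih t').1 ht'
      refine ⟨by simp [h1], ?_⟩
      intro a ha
      rcases List.mem_cons.1 ha with rfl | ha
      · exact hq
      · exact h2 a ha
    · rintro ⟨h1, h2⟩
      rcases t with _ | ⟨q, t⟩
      · simp at h1
      · exact ⟨t, (ih t).2 ⟨by simpa using h1, fun a ha => h2 a (List.mem_cons_of_mem _ ha)⟩, q,
          h2 q (by simp), rfl⟩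

theorem look_asg (W : List Str) (g : Str → Bool) (u : Str) :
    look (asg W g) u = if u ∈ W then some (g u) else none := by
  unfold look asg
  induction W with
  | nil => simp
  | cons w W ih =>
    rw [List.map_cons, List.find?_cons]
    by_cases h : w = u
    · subst h
      simp
    · have h1 : (w == u) = false := by simpa using h
      have h2 : u ∈ w :: W ↔ u ∈ W := by
        rw [List.mem_cons]
        exact ⟨fun e => e.resolve_left (fun e => h e.symm), Or.inr⟩
      simp only [h1, h2]
      exact ih

theorem look_asg_mem {W : List Str} {g : Str → Bool} {u : Str} (h : u ∈ W) :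
    look (asg W g) u = some (g u) := by rw [look_asg, if_pos h]

theorem look_asg_notMem {W : List Str} {g : Str → Bool} {u : Str} (h : u ∉ W) :
    look (asg W g) u = none := by rw [look_asg, if_neg h]

theorem gv_asg_mem {W : List Str} {g : Str → Bool} {u : Str} (h : u ∈ W) :
    gv (asg W g) u = g u := by rw [gv, look_asg_mem h]; rfl

theorem gv_asg_notMem {W : List Str} {g : Str → Bool} {u : Str} (h : u ∉ W) :
    gv (asg W g) u = false := by rw [gv, look_asg_notMem h]; rfl

theorem asg_congr {W : List Str} {g g' : Str → Bool} (h : ∀ w ∈ W, g w = g' w) :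
    asg W g = asg W g' := by
  unfold asg
  exact List.map_congr_left (fun w hw => by rw [h w hw])

theorem asg_gv (W : List Str) (g : Str → Bool) : asg W (gv (asg W g)) = asg W g :=
  asg_congr (fun _ hw => gv_asg_mem hw)

theorem asg_fst (W : List Str) (g : Str → Bool) : (asg W g).map Prod.fst = W := by
  unfold asg
  rw [List.map_map]
  exact List.map_id' W |> fun h => by simpa [Function.comp_def] using h

section alg

variable (F1 F2 : Str → Str) (k R : ℕ)

/-- a query whose answer is consistent with `v` -/
def qOK (m : Str) (β : Bool) (v : Asg) : Bool :=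
  match m with
  | [] => false
  | true :: _ => false
  | false :: q => match look v q with
    | none => true
    | some c => c == β

/-- `v` is consistent with the cheating machine on the tuple `t` -/
def okT (v : Asg) (t : List Str) : Bool :=
  (allB k).any (fun b => (List.range (k + 1)).any (fun i =>
    (F1 (pairS (tupS t) (b.take i)) == true :: t.map (gv v)) &&
    (List.range i).all (fun j => qOK (F1 (pairS (tupS t) (b.take j))) (b.getD j false) v)))

/-- answer one more query of the self-reduction on `s` -/
def ansStep (v : Asg) (s : Str) (ans : List Bool) : List Bool :=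
  match F2 (pairS s ans) with
  | [] => ans
  | true :: _ => ans
  | false :: q => if q.length < s.length then
      (match look v q with
      | none => ans
      | some c => ans ++ [c])
    else ans

def fin (v : Asg) (s : Str) : List Bool := (ansStep F2 v s)^[R] []

/-- the self-reduction on `s` is consistent with `v` -/
def okS (v : Asg) (s : Str) : Bool :=
  decide ((fin F2 R v s).length < R) &&
  (match F2 (pairS s (fin F2 R v s)) with
  | [] => false
  | true :: o => o == [gv v s]
  | false :: q => decide (q.length < s.length) && (look v q).isNone)

def inD (D : List (List Bool)) (b : List Bool) : Bool := D.any (fun d => d == b)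

def okF (x : Str) (S : List Str) (D : List (List Bool)) (v : Asg) : Bool :=
  (tuples (2 ^ k - 1) (v.map Prod.fst)).all (okT F1 k v) &&
  (S.all (fun s => (look v s).isNone || okS F2 R v s) &&
   ((x :: S).any (fun s => (look v s).isNone) || (gv v x == inD D (S.map (gv v)))))

def memS (W : List Str) (w : Str) : Bool := W.any (fun u => u == w)

def cstep (x : Str) (S : List Str) (D : List (List Bool)) (st : List Str × List Asg) (w : Str) :
    List Str × List Asg :=
  if memS st.1 w then st else
    (w :: st.1, ((st.2.flatMap (fun v => [(w, true) :: v, (w, false) :: v])).filter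
      (okF F1 F2 k R x S D)).take (st.1.length + 1 + 2 ^ k))

def cands (x : Str) (S : List Str) (D : List (List Bool)) (L : List Str) :
    List Str × List Asg := L.foldl (cstep F1 F2 k R x S D) ([], [[]])

def restr (v : Asg) (Q : List Str) : Asg := v.filter (fun p => memS Q p.1)

def agree (Q : List Str) (v v' : Asg) : Bool := Q.all (fun q => gv v q == gv v' q)

def common (x : Str) (G : List Asg) (Q : List Str) (v : Asg) : Bool :=
  G.any (fun v' => (gv v x ^^ gv v' x) && agree Q v v')

def nq (Q : List Str) (v : Asg) (s : Str) : List Str :=
  match F2 (pairS s (fin F2 R (restr v Q) s)) with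
  | [] => []
  | true :: _ => []
  | false :: q => if q.length < s.length then [q] else []

def newQ (x : Str) (S : List Str) (D : List (List Bool)) (Q : List Str) : List Str :=
  (((cands F1 F2 k R x S D (x :: (S ++ Q))).2.filter
    (common x (cands F1 F2 k R x S D (x :: (S ++ Q))).2 Q)).take
      (2 ^ k + 2 ^ (2 ^ k + 1))).flatMap (fun v => S.flatMap (fun s => nq F2 R Q v s))

def rounds (x : Str) (S : List Str) (D : List (List Bool)) (r : ℕ) : List Str :=
  (fun Q => Q ++ newQ F1 F2 k R x S D Q)^[r] []

def aux (Q : List Str) : List Str :=
  (tuples (2 ^ k - 1) Q).flatMap (fun t => match F1 (pairS (tupS t) []) with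
    | [] => []
    | true :: _ => []
    | false :: u => [u])

def determ (x : Str) (G : List Asg) (T : List Str) : Bool :=
  G.all (fun v => G.all (fun v' => !(agree T v v') || (gv v x == gv v' x)))

def stepA (x : Str) (SD : List Str × List (List Bool)) : List Str × List (List Bool) :=
  let Q := rounds F1 F2 k R x SD.1 SD.2 R
  let G := (cands F1 F2 k R x SD.1 SD.2 (x :: (SD.1 ++ (Q ++ aux F1 k Q)))).2
  let T := (([] :: tuples (2 ^ k) Q).find? (determ x G)).getD []
  (T, (allB 0 ++ allB (2 ^ k)).filter (fun d => G.any (fun v => gv v x && (T.map (gv v) == d))))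

def algA (x : Str) : Bool :=
  inD ((stepA F1 F2 k R x)^[x.length + 1] ([x], [[true]])).2 []

end alg

end Pool.Agent.W2helper61.Cheat
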