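import Mathlib

/-!
Combinatorics of families of 0-1 functions with few patterns on every `2 h - 1` points.
-/

set_option autoImplicit false

namespace Pool.Agent.W2helper61.Cheat

open Finset

variable {α : Type}

theorem bne {a b : Bool} (h : ¬ a = b) : a = !b := by revert a b; decide

theorem bxor1 (o a : Bool) : a = (o ^^ (o ^^ a)) := by revert o a; decide

theorem bxor2 (o a : Bool) : (!a) = ((!o) ^^ (o ^^ a)) := by revert o a; decide

theorem bne3 {a b c : Bool} (h : ¬ a = b) (h' : ¬ b = c) : a = c := by revert a b c; decide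

/-- on every `2 h - 1` points of `W` there are at most `2 h` patterns -/
def P1 (h : ℕ) (F : Finset (α → Bool)) (W : List α) : Prop :=
  ∀ t : List α, t.length = 2 * h - 1 → (∀ a ∈ t, a ∈ W) → ∀ F' ⊆ F,
    (∀ g ∈ F', ∀ g' ∈ F', (∀ a ∈ t, g a = g' a) → g = g') → F'.card ≤ 2 * h

/-- on every `2 h - 1` points of `Q` some point of `W` splits the patterns into at most `h` and
at most `h` -/
def P2 (h : ℕ) (F : Finset (α → Bool)) (Q W : List α) : Prop :=
  ∀ t : List α, t.length = 2 * h - 1 → (∀ a ∈ t, a ∈ Q) → ∃ u ∈ W, ∀ F' ⊆ F,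
    (∀ g ∈ F', ∀ g' ∈ F', (∀ a ∈ t, g a = g' a) → g = g') →
    ∀ β : Bool, (∀ g ∈ F', g u = β) → F'.card ≤ h

theorem P1.mono {h : ℕ} {F F' : Finset (α → Bool)} {W : List α} (H : P1 h F W) (hF : F' ⊆ F) :
    P1 h F' W := fun t ht hW G hG => H t ht hW G (hG.trans hF)

/-- if some pair is shattered there are at most `2 h` functions -/
theorem card_le_of_shatter {h : ℕ} (hh : 2 ≤ h) {F : Finset (α → Bool)} {W : List α}
    (hW : ∀ g ∈ F, ∀ g' ∈ F, (∀ w ∈ W, g w = g' w) → g = g') (h1 : P1 h F W) {a b : α}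
    (ha : a ∈ W) (hb : b ∈ W) (hs : ∀ s t : Bool, ∃ g ∈ F, g a = s ∧ g b = t) :
    F.card ≤ 2 * h := by
  classical
  have key : ∀ j : ℕ, ∃ T : List α, T.length ≤ 2 + j ∧ (∀ a ∈ T, a ∈ W) ∧ ∃ F' ⊆ F,
      min F.card (4 + j) ≤ F'.card ∧
      ∀ g ∈ F', ∀ g' ∈ F', (∀ a ∈ T, g a = g' a) → g = g' := by
    intro j
    induction j with
    | zero =>
      choose G hG1 hG2 hG3 using hs
      refine ⟨[a, b], by simp, by simp [ha, hb],
        Finset.univ.image (fun p : Bool × Bool => G p.1 p.2), ?_, ?_, ?_⟩
      · intro g hg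
        obtain ⟨p, _, rfl⟩ := Finset.mem_image.1 hg
        exact hG1 _ _
      · rw [Finset.card_image_of_injective]
        · simp
        · intro p q hpq
          simp only at hpq
          have e1 := congrFun hpq a
          have e2 := congrFun hpq b
          rw [hG2, hG2] at e1
          rw [hG3, hG3] at e2
          exact Prod.ext e1 e2
      · intro g hg g' hg' hgg
        obtain ⟨p, _, rfl⟩ := Finset.mem_image.1 hg
        obtain ⟨q, _, rfl⟩ := Finset.mem_image.1 hg'
        have e1 := hgg a (by simp)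
        have e2 := hgg b (by simp)
        rw [hG2, hG2] at e1
        rw [hG3, hG3] at e2
        rw [e1, e2]
    | succ j ih =>
      obtain ⟨T, hT1, hT2, F', hF, hc, hinj⟩ := ih
      by_cases hlt : F'.card < F.card
      · obtain ⟨g, hg, hg'⟩ := Finset.exists_mem_notMem_of_card_lt_card hlt
        by_cases hex : ∃ g' ∈ F', ∀ a ∈ T, g a = g' a
        · obtain ⟨g', hg1, hg2⟩ := hex
          have hne : g ≠ g' := fun e => hg' (e ▸ hg1)
          have : ∃ w ∈ W, g w ≠ g' w := by
            by_contra hcon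
            push Not at hcon
            exact hne (hW g hg g' (hF hg1) hcon)
          obtain ⟨w, hw, hwne⟩ := this
          refine ⟨w :: T, by simp only [List.length_cons]; omega, ?_, insert g F', ?_, ?_, ?_⟩
          · intro a ha
            rcases List.mem_cons.1 ha with rfl | ha
            · exact hw
            · exact hT2 a ha
          · intro x hx
            rcases Finset.mem_insert.1 hx with rfl | hx
            · exact hg
            · exact hF hx
          · rw [Finset.card_insert_of_notMem hg']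
            omega
          · have aux : ∀ x ∈ F', (∀ a ∈ w :: T, g a = x a) → False := by
              intro x hx hxa
              have e : x = g' := hinj x hx g' hg1 (fun a ha => by
                rw [← hxa a (List.mem_cons_of_mem _ ha), hg2 a ha])
              apply hwne
              rw [hxa w (by simp), e]
            intro x hx y hy hxy
            rcases Finset.mem_insert.1 hx with ex | hx'
            · rcases Finset.mem_insert.1 hy with ey | hy'
              · rw [ex, ey]
              · exact (aux y hy' (fun a ha => by rw [← ex]; exact hxy a ha)).elim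
            · rcases Finset.mem_insert.1 hy with ey | hy'
              · exact (aux x hx' (fun a ha => by rw [← ey]; exact (hxy a ha).symm)).elim
              · exact hinj x hx' y hy' (fun a ha => hxy a (List.mem_cons_of_mem _ ha))
        · push Not at hex
          refine ⟨T, by omega, hT2, insert g F', ?_, ?_, ?_⟩
          · intro x hx
            rcases Finset.mem_insert.1 hx with rfl | hx
            · exact hg
            · exact hF hx
          · rw [Finset.card_insert_of_notMem hg']
            omega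
          · intro x hx y hy hxy
            rcases Finset.mem_insert.1 hx with ex | hx'
            · rcases Finset.mem_insert.1 hy with ey | hy'
              · rw [ex, ey]
              · obtain ⟨a, ha, hne⟩ := hex y hy'
                rw [← ex] at hne
                exact absurd (hxy a ha) hne
            · rcases Finset.mem_insert.1 hy with ey | hy'
              · obtain ⟨a, ha, hne⟩ := hex x hx'
                rw [← ey] at hne
                exact absurd (hxy a ha).symm hne
              · exact hinj x hx' y hy' hxy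
      · exact ⟨T, by omega, hT2, F', hF, by omega, hinj⟩
  obtain ⟨T, hT1, hT2, F', hF, hc, hinj⟩ := key (2 * h - 3)
  have h2 := h1 (T ++ List.replicate (2 * h - 1 - T.length) a) (by
      rw [List.length_append, List.length_replicate]; omega) (by
      intro x hx
      rcases List.mem_append.1 hx with hx | hx
      · exact hT2 x hx
      · rw [List.eq_of_mem_replicate hx]; exact ha) F' hF (by
      intro g hg g' hg' hgg
      exact hinj g hg g' hg' (fun a ha => hgg a (List.mem_append_left _ ha)))
  omega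

/-- there is no star with `2 h + 1` leaves -/
theorem no_star {h : ℕ} (hh : 2 ≤ h) {F : Finset (α → Bool)} {Q W : List α}
    (hQW : ∀ a ∈ Q, a ∈ W) (h1 : P1 h F W) (h2 : P2 h F Q W)
    (a : Fin (2 * h + 1) → α) (ha : ∀ i, a i ∈ Q) (g : Fin (2 * h + 1) → α → Bool)
    (hg : ∀ i, g i ∈ F) (c : Fin (2 * h + 1) → Bool)
    (hst : ∀ i j, g i (a j) = c j ↔ i ≠ j) : False := by
  classical
  have ginj : Function.Injective g := by
    intro i j hij
    by_contra hne
    have e1 : g i (a i) ≠ c i := fun e => (hst i i).1 e rfl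
    apply e1
    rw [hij]
    exact (hst j i).2 (Ne.symm hne)
  -- no pair is shattered
  have hns : ∀ u ∈ W, ∀ v ∈ W, ¬ ∀ s t : Bool, ∃ i, g i u = s ∧ g i v = t := by
    intro u hu v hv hs
    have := card_le_of_shatter hh (F := Finset.univ.image g) (W := W) (by
      intro x hx y hy hxy
      obtain ⟨i, _, rfl⟩ := Finset.mem_image.1 hx
      obtain ⟨j, _, rfl⟩ := Finset.mem_image.1 hy
      by_contra hne
      have hij : i ≠ j := fun e => hne (by rw [e])
      have e1 : g i (a i) ≠ c i := fun e => (hst i i).1 e rfl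
      apply e1
      rw [hxy (a i) (hQW _ (ha i))]
      exact (hst j i).2 (Ne.symm hij)) (h1.mono (by
        intro x hx
        obtain ⟨i, _, rfl⟩ := Finset.mem_image.1 hx
        exact hg i)) hu hv (by
        intro s t
        obtain ⟨i, hi1, hi2⟩ := hs s t
        exact ⟨g i, Finset.mem_image_of_mem _ (Finset.mem_univ i), hi1, hi2⟩)
    rw [Finset.card_image_of_injective _ ginj, Finset.card_univ, Fintype.card_fin] at this
    omega
  -- the splits
  have split : ∀ B : Finset (Fin (2 * h + 1)), B.card = 2 * h - 1 → ∃ u ∈ W, ∃ C ⊆ B,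
      C.card = h ∧ ∃ β : Bool, (∀ i ∈ C, g i u = β) ∧ ∀ i, i ∉ C → g i u = !β := by
    intro B hB
    obtain ⟨u, hu, H⟩ := h2 (B.toList.map a) (by simp [hB]) (by
      intro x hx
      obtain ⟨i, _, rfl⟩ := List.mem_map.1 hx
      exact ha i)
    have H' : ∀ D : Finset (Fin (2 * h + 1)), (∀ i ∈ D, ∀ j ∈ D, i ∉ B → j ∉ B → i = j) →
        ∀ β : Bool, (∀ i ∈ D, g i u = β) → D.card ≤ h := by
      intro D hD β hβ
      have := H (D.image g) (by
        intro x hx
        obtain ⟨i, _, rfl⟩ := Finset.mem_image.1 hx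
        exact hg i) (by
        intro x hx y hy hxy
        obtain ⟨i, hi, rfl⟩ := Finset.mem_image.1 hx
        obtain ⟨j, hj, rfl⟩ := Finset.mem_image.1 hy
        congr 1
        have hxy' : ∀ b ∈ B, g i (a b) = g j (a b) := by
          intro b hb
          exact hxy (a b) (List.mem_map.2 ⟨b, Finset.mem_toList.2 hb, rfl⟩)
        by_cases hiB : i ∈ B
        · by_contra hne
          exact (hst i i).1 ((hxy' i hiB).trans ((hst j i).2 (Ne.symm hne))) rfl
        · by_cases hjB : j ∈ B
          · by_contra hne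
            exact (hst j j).1 ((hxy' j hjB).symm.trans ((hst i j).2 hne)) rfl
          · exact hD i hi j hj hiB hjB) β (by
        intro x hx
        obtain ⟨i, hi, rfl⟩ := Finset.mem_image.1 hx
        exact hβ i hi)
      rwa [Finset.card_image_of_injective _ ginj] at this
    obtain ⟨j0, hj0⟩ : ∃ j0, j0 ∉ B := by
      by_contra hcon
      push Not at hcon
      have : B = Finset.univ := Finset.eq_univ_iff_forall.2 hcon
      rw [this, Finset.card_univ, Fintype.card_fin] at hB
      omega
    have hcard := Finset.card_filter_add_card_filter_not (s := B) (fun i => g i u = g j0 u)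
    have e1 := H' (insert j0 (B.filter (fun i => g i u = g j0 u))) (by
      intro i hi j hj hiB hjB
      have hi' : i = j0 := by
        rcases Finset.mem_insert.1 hi with e | e
        · exact e
        · exact absurd (Finset.mem_filter.1 e).1 hiB
      have hj' : j = j0 := by
        rcases Finset.mem_insert.1 hj with e | e
        · exact e
        · exact absurd (Finset.mem_filter.1 e).1 hjB
      rw [hi', hj']) (g j0 u) (by
      intro i hi
      rcases Finset.mem_insert.1 hi with e | e
      · rw [e]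
      · exact (Finset.mem_filter.1 e).2)
    rw [Finset.card_insert_of_notMem (by simp [hj0])] at e1
    have hval : ∀ i, ¬ g i u = g j0 u → g i u = !(g j0 u) := fun i hi => bne hi
    have e2 := H' (B.filter (fun i => ¬ g i u = g j0 u)) (by
      intro i hi j hj hiB hjB
      exact absurd (Finset.mem_filter.1 hi).1 hiB) (!(g j0 u)) (by
      intro i hi
      exact hval i (Finset.mem_filter.1 hi).2)
    refine ⟨u, hu, B.filter (fun i => ¬ g i u = g j0 u), Finset.filter_subset _ _, by omega,
      !(g j0 u), ?_, ?_⟩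
    · intro i hi
      exact hval i (Finset.mem_filter.1 hi).2
    · intro i hi
      rw [Bool.not_not]
      by_cases hiB : i ∈ B
      · by_contra hne
        exact hi (Finset.mem_filter.2 ⟨hiB, hne⟩)
      · by_contra hne
        have e3 := H' (insert i (B.filter (fun i => ¬ g i u = g j0 u))) (by
          intro k hk j hj hkB hjB
          have hk' : k = i := by
            rcases Finset.mem_insert.1 hk with e | e
            · exact e
            · exact absurd (Finset.mem_filter.1 e).1 hkB
          have hj' : j = i := by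
            rcases Finset.mem_insert.1 hj with e | e
            · exact e
            · exact absurd (Finset.mem_filter.1 e).1 hjB
          rw [hk', hj']) (!(g j0 u)) (by
          intro k hk
          rcases Finset.mem_insert.1 hk with e | e
          · rw [e]; exact hval i hne
          · exact hval k (Finset.mem_filter.1 e).2)
        rw [Finset.card_insert_of_notMem (by simp [hiB])] at e3
        omega
  -- two splits are equal or disjoint
  have cross : ∀ (C D : Finset (Fin (2 * h + 1))) (u v : α) (β γ : Bool), u ∈ W → v ∈ W →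
      C.card = h → D.card = h → (∀ i ∈ C, g i u = β) → (∀ i, i ∉ C → g i u = !β) →
      (∀ i ∈ D, g i v = γ) → (∀ i, i ∉ D → g i v = !γ) → C ≠ D → Disjoint C D := by
    intro C D u v β γ hu hv hC hD c1 c2 d1 d2 hne
    by_contra hnd
    rw [Finset.not_disjoint_iff] at hnd
    obtain ⟨i3, h3C, h3D⟩ := hnd
    obtain ⟨i1, h1C, h1D⟩ : ∃ i ∈ C, i ∉ D := by
      by_contra hcon
      push Not at hcon
      exact hne (Finset.eq_of_subset_of_card_le hcon (by omega))
    obtain ⟨i2, h2D, h2C⟩ : ∃ i ∈ D, i ∉ C := by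
      by_contra hcon
      push Not at hcon
      exact hne (Finset.eq_of_subset_of_card_le hcon (by omega)).symm
    obtain ⟨i4, h4⟩ : ∃ i, i ∉ C ∪ D := by
      by_contra hcon
      push Not at hcon
      have e : C ∪ D = Finset.univ := Finset.eq_univ_iff_forall.2 hcon
      have e1 := Finset.card_union_le C D
      rw [e, Finset.card_univ, Fintype.card_fin] at e1
      omega
    rw [Finset.mem_union, not_or] at h4
    apply hns u hu v hv
    intro s t
    by_cases hs : s = β
    · by_cases ht : t = γ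
      · exact ⟨i3, by rw [c1 i3 h3C, hs], by rw [d1 i3 h3D, ht]⟩
      · exact ⟨i1, by rw [c1 i1 h1C, hs], by rw [d2 i1 h1D, bne ht]⟩
    · have hs' : s = !β := bne hs
      by_cases ht : t = γ
      · exact ⟨i2, by rw [c2 i2 h2C, hs'], by rw [d1 i2 h2D, ht]⟩
      · exact ⟨i4, by rw [c2 i4 h4.1, hs'], by rw [d2 i4 h4.2, bne ht]⟩
  obtain ⟨B1, hB1, hB1c⟩ := Finset.exists_subset_card_eq
    (s := (Finset.univ : Finset (Fin (2 * h + 1)))) (n := 2 * h - 1) (by
      rw [Finset.card_univ, Fintype.card_fin]; omega)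
  obtain ⟨u1, hu1, C1, hC1B, hC1, β1, c11, c12⟩ := split B1 hB1c
  obtain ⟨r1, hr1⟩ : C1.Nonempty := Finset.card_pos.1 (by omega)
  obtain ⟨B2, hB2, hB2c⟩ := Finset.exists_subset_card_eq
    (s := (Finset.univ : Finset (Fin (2 * h + 1))).erase r1) (n := 2 * h - 1) (by
      rw [Finset.card_erase_of_mem (Finset.mem_univ _), Finset.card_univ, Fintype.card_fin]; omega)
  obtain ⟨u2, hu2, C2, hC2B, hC2, β2, c21, c22⟩ := split B2 hB2c
  obtain ⟨r2, hr2⟩ : C2.Nonempty := Finset.card_pos.1 (by omega)
  have hr12 : r2 ≠ r1 := (Finset.mem_erase.1 (hB2 (hC2B hr2))).1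
  have hr1C2 : r1 ∉ C2 := fun e => (Finset.mem_erase.1 (hB2 (hC2B e))).1 rfl
  obtain ⟨u3, hu3, C3, hC3B, hC3, β3, c31, c32⟩ := split
    (((Finset.univ : Finset (Fin (2 * h + 1))).erase r1).erase r2) (by
      rw [Finset.card_erase_of_mem (Finset.mem_erase.2 ⟨hr12, Finset.mem_univ _⟩),
        Finset.card_erase_of_mem (Finset.mem_univ _), Finset.card_univ, Fintype.card_fin]
      omega)
  have hr1C3 : r1 ∉ C3 := fun e =>
    (Finset.mem_erase.1 (Finset.mem_erase.1 (hC3B e)).2).1 rfl
  have hr2C3 : r2 ∉ C3 := fun e => (Finset.mem_erase.1 (hC3B e)).1 rfl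
  have d12 := cross C1 C2 u1 u2 β1 β2 hu1 hu2 hC1 hC2 c11 c12 c21 c22
    (fun e => hr1C2 (e ▸ hr1))
  have d13 := cross C1 C3 u1 u3 β1 β3 hu1 hu3 hC1 hC3 c11 c12 c31 c32
    (fun e => hr1C3 (e ▸ hr1))
  have d23 := cross C2 C3 u2 u3 β2 β3 hu2 hu3 hC2 hC3 c21 c22 c31 c32
    (fun e => hr2C3 (e ▸ hr2))
  have e1 := Finset.card_union_of_disjoint d12
  have e2 : Disjoint (C1 ∪ C2) C3 := Finset.disjoint_union_left.2 ⟨d13, d23⟩
  have e3 := Finset.card_union_of_disjoint e2
  have e4 := Finset.card_le_univ ((C1 ∪ C2) ∪ C3)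
  rw [Fintype.card_fin] at e4
  omega

/-- few points distinguish few functions -/
theorem exists_small (F : Finset (α → Bool)) (Q : List α) :
    ∃ T : List α, T.length ≤ F.card - 1 ∧ (∀ a ∈ T, a ∈ Q) ∧
      ∀ g ∈ F, ∀ g' ∈ F, (∀ a ∈ T, g a = g' a) → ∀ a ∈ Q, g a = g' a := by
  classical
  induction F using Finset.induction_on with
  | empty => exact ⟨[], by simp, by simp, by simp⟩
  | insert g F hg ih =>
    obtain ⟨T, hT1, hT2, hT3⟩ := ih
    rw [Finset.card_insert_of_notMem hg]
    by_cases hex : ∃ g' ∈ F, (∀ a ∈ T, g a = g' a) ∧ ∃ q ∈ Q, g q ≠ g' q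
    · obtain ⟨g', hg', hT, q, hq, hne⟩ := hex
      have hpos : 1 ≤ F.card := Finset.card_pos.2 ⟨g', hg'⟩
      refine ⟨q :: T, by simp only [List.length_cons]; omega, ?_, ?_⟩
      · intro a ha
        rcases List.mem_cons.1 ha with rfl | ha
        · exact hq
        · exact hT2 a ha
      · have aux : ∀ x ∈ F, (∀ a ∈ q :: T, g a = x a) → False := by
          intro x hx hxa
          have e := hT3 x hx g' hg' (fun a ha => by
            rw [← hxa a (List.mem_cons_of_mem _ ha), hT a ha]) q hq
          exact hne ((hxa q (by simp)).trans e)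
        intro x hx y hy hxy
        rcases Finset.mem_insert.1 hx with ex | hx'
        · rcases Finset.mem_insert.1 hy with ey | hy'
          · intro a _; rw [ex, ey]
          · exact (aux y hy' (fun a ha => by rw [← ex]; exact hxy a ha)).elim
        · rcases Finset.mem_insert.1 hy with ey | hy'
          · exact (aux x hx' (fun a ha => by rw [← ey]; exact (hxy a ha).symm)).elim
          · exact hT3 x hx' y hy' (fun a ha => hxy a (List.mem_cons_of_mem _ ha))
    · push Not at hex
      refine ⟨T, by omega, hT2, ?_⟩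
      intro x hx y hy hxy
      rcases Finset.mem_insert.1 hx with ex | hx'
      · rcases Finset.mem_insert.1 hy with ey | hy'
        · intro a _; rw [ex, ey]
        · rw [ex] at hxy ⊢
          exact hex y hy' hxy
      · rcases Finset.mem_insert.1 hy with ey | hy'
        · rw [ey] at hxy ⊢
          intro a ha
          exact (hex x hx' (fun a ha => (hxy a ha).symm) a ha).symm
        · exact hT3 x hx' y hy' hxy

/-- a point determined by `Q` is determined by at most `2 h` points of `Q` -/
theorem exists_determining {h : ℕ} (hh : 2 ≤ h) {F : Finset (α → Bool)} {Q W : List α}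
    (hW : ∀ g ∈ F, ∀ g' ∈ F, (∀ w ∈ W, g w = g' w) → g = g')
    (hQW : ∀ a ∈ Q, a ∈ W) (h1 : P1 h F W) (h2 : P2 h F Q W) {x : α} (hx : x ∈ W)
    (hdet : ∀ g ∈ F, ∀ g' ∈ F, (∀ q ∈ Q, g q = g' q) → g x = g' x) :
    ∃ T : List α, T.length ≤ 2 * h ∧ (∀ a ∈ T, a ∈ Q) ∧
      ∀ g ∈ F, ∀ g' ∈ F, (∀ a ∈ T, g a = g' a) → g x = g' x := by
  classical
  by_cases hc : F.card ≤ 2 * h
  · obtain ⟨T, hT1, hT2, hT3⟩ := exists_small F Q
    exact ⟨T, by omega, hT2, fun g hg g' hg' hgg => hdet g hg g' hg' (hT3 g hg g' hg' hgg)⟩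
  -- no pair is shattered
  have hns : ∀ q ∈ Q, ¬ ∀ s t : Bool, ∃ g ∈ F, g x = s ∧ g q = t := by
    intro q hq hs
    exact hc (card_le_of_shatter hh hW h1 hx (hQW q hq) hs)
  -- `q` is constant on one of the two sides
  have hside : ∀ q ∈ Q, ∃ o a : Bool, ∀ g ∈ F, g x = o → g q = a := by
    intro q hq
    by_contra hcon
    push Not at hcon
    apply hns q hq
    intro s t
    obtain ⟨g, hg, hgx, hgq⟩ := hcon s (!t)
    exact ⟨g, hg, hgx, by rw [bne hgq, Bool.not_not]⟩
  by_cases hconst : ∃ o : Bool, ∀ g ∈ F, g x = o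
  · obtain ⟨o, ho⟩ := hconst
    exact ⟨[], by simp, by simp, fun g hg g' hg' _ => by rw [ho g hg, ho g' hg']⟩
  push Not at hconst
  have hne : ∀ o : Bool, ∃ g ∈ F, g x = o := by
    intro o
    obtain ⟨g, hg, hgo⟩ := hconst (!o)
    exact ⟨g, hg, by rw [bne hgo, Bool.not_not]⟩
  -- an equivalent point
  by_cases heq : ∃ q ∈ Q, ∃ b : Bool, ∀ g ∈ F, g q = (g x ^^ b)
  · obtain ⟨q, hq, b, hb⟩ := heq
    refine ⟨[q], by simp only [List.length_singleton]; omega, by simpa using hq, ?_⟩
    intro g hg g' hg' hgg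
    have e := hgg q (by simp)
    rw [hb g hg, hb g' hg'] at e
    cases b <;> simpa using e
  push Not at heq
  -- the common value
  have hcomm : ∀ q ∈ Q, ∃ a : Bool, ∃ o : Bool, (∀ g ∈ F, g x = o → g q = a) ∧
      ∀ o' : Bool, (∃ b, ∀ g ∈ F, g x = o' → g q = b) → ∀ g ∈ F, g x = o' → g q = a := by
    intro q hq
    obtain ⟨o, a, hoa⟩ := hside q hq
    refine ⟨a, o, hoa, ?_⟩
    rintro o' ⟨b, hb⟩
    by_cases hoo : o' = o
    · rw [hoo]; exact hoa
    · by_cases hab : b = a
      · rw [← hab]; exact hb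
      · exfalso
        obtain ⟨g, hg, hne'⟩ := heq q hq (o ^^ a)
        apply hne'
        by_cases hgo : g x = o
        · rw [hoa g hg hgo, hgo]; exact bxor1 o a
        · have e : g x = o' := bne3 hgo (fun e => hoo e.symm)
          rw [hb g hg e, e, bne hoo, bne hab]
          exact bxor2 o a
  choose! a side hside1 hside2 using hcomm
  -- the side on which `a` does not occur
  obtain ⟨o, ho⟩ : ∃ o : Bool, ∀ g ∈ F, g x ≠ o → ∃ q ∈ Q, g q ≠ a q := by
    by_contra hcon
    push Not at hcon
    obtain ⟨g, hg, hgx, hgq⟩ := hcon true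
    obtain ⟨g', hg', hgx', hgq'⟩ := hcon false
    have e := hdet g hg g' hg' (fun q hq => by rw [hgq q hq, hgq' q hq])
    rw [bne hgx, bne hgx'] at e
    exact absurd e (by decide)
  -- literals
  have hcov : ∀ g ∈ F, g x ≠ o → ∃ q ∈ Q.toFinset.filter (fun q => ∀ g ∈ F, g x = o → g q = a q),
      g q ≠ a q := by
    intro g hg hgx
    obtain ⟨q, hq, hne'⟩ := ho g hg hgx
    refine ⟨q, Finset.mem_filter.2 ⟨List.mem_toFinset.2 hq, ?_⟩, hne'⟩
    by_cases hs : side q = o
    · rw [← hs]; exact hside1 q hq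
    · exfalso
      have e : g x = side q := bne3 hgx (fun e => hs e.symm)
      exact hne' (hside1 q hq g hg e)
  -- a minimal cover
  obtain ⟨T, hTsub, hTcov, hTmin⟩ : ∃ T ⊆ Q.toFinset.filter
      (fun q => ∀ g ∈ F, g x = o → g q = a q),
      (∀ g ∈ F, g x ≠ o → ∃ q ∈ T, g q ≠ a q) ∧
      ∀ q ∈ T, ∃ g ∈ F, g x ≠ o ∧ ∀ q' ∈ T, q' ≠ q → g q' = a q' := by
    have hex : ∃ n, ∃ T ⊆ Q.toFinset.filter (fun q => ∀ g ∈ F, g x = o → g q = a q),
        (∀ g ∈ F, g x ≠ o → ∃ q ∈ T, g q ≠ a q) ∧ T.card = n :=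
      ⟨_, _, Finset.Subset.refl _, hcov, rfl⟩
    obtain ⟨T, hT1, hT2, hT3⟩ := Nat.find_spec hex
    refine ⟨T, hT1, hT2, ?_⟩
    intro q hq
    by_contra hcon
    push Not at hcon
    have hlt : (T.erase q).card < Nat.find hex := by
      rw [← hT3]; exact Finset.card_erase_lt_of_mem hq
    apply Nat.find_min hex hlt
    refine ⟨T.erase q, (Finset.erase_subset _ _).trans hT1, ?_, rfl⟩
    intro g hg hgx
    obtain ⟨q', hq', hne1, hne2⟩ := hcon g hg hgx
    exact ⟨q', Finset.mem_erase.2 ⟨hne1, hq'⟩, hne2⟩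
  have hTQ : ∀ q ∈ T, q ∈ Q := fun q hq =>
    List.mem_toFinset.1 (Finset.mem_filter.1 (hTsub hq)).1
  have hTo : ∀ q ∈ T, ∀ g ∈ F, g x = o → g q = a q := fun q hq =>
    (Finset.mem_filter.1 (hTsub hq)).2
  refine ⟨T.toList, ?_, by simpa using hTQ, ?_⟩
  · rw [Finset.length_toList]
    by_contra hlt
    push Not at hlt
    obtain ⟨T', hT', hT'c⟩ := Finset.exists_subset_card_eq (s := T) (n := 2 * h + 1) (by omega)
    choose! g hgF hgx hgq using hTmin
    have e := T'.equivFinOfCardEq hT'c
    refine no_star hh hQW h1 h2 (fun i => (e.symm i : α)) (fun i => hTQ _ (hT' (e.symm i).2))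
      (fun i => g (e.symm i)) (fun i => hgF _ (hT' (e.symm i).2)) (fun i => a (e.symm i)) ?_
    intro i j
    constructor
    · rintro hij rfl
      obtain ⟨q, hq, hne'⟩ := hTcov _ (hgF _ (hT' (e.symm i).2)) (hgx _ (hT' (e.symm i).2))
      by_cases hqe : q = (e.symm i : α)
      · rw [hqe] at hne'
        exact hne' hij
      · exact hne' (hgq _ (hT' (e.symm i).2) q hq hqe)
    · intro hij
      refine hgq _ (hT' (e.symm i).2) _ (hT' (e.symm j).2) ?_
      intro hcon
      exact hij (e.symm.injective (Subtype.ext hcon)).symm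
  · have key : ∀ g ∈ F, (g x = o ↔ ∀ q ∈ T, g q = a q) := by
      intro g hg
      constructor
      · intro hgo q hq
        exact hTo q hq g hg hgo
      · intro hall
        by_contra hgo
        obtain ⟨q, hq, hne'⟩ := hTcov g hg hgo
        exact hne' (hall q hq)
    intro g hg g' hg' hgg
    have hgg' : ∀ q ∈ T, g q = g' q := fun q hq => hgg q (Finset.mem_toList.2 hq)
    have e : g x = o ↔ g' x = o := by
      rw [key g hg, key g' hg']
      exact forall₂_congr (fun q hq => by rw [hgg' q hq])
    by_cases h3 : g x = o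
    · rw [h3, e.1 h3]
    · rw [bne h3, bne (fun h4 => h3 (e.2 h4))]

/-- a family without shattered pair: adding one point adds at most one function -/
theorem card_le_succ {h : ℕ} (hh : 2 ≤ h) {F : Finset (α → Bool)} {W : List α} {w : α}
    (hw : w ∈ W)
    (hW : ∀ g ∈ F, ∀ g' ∈ F, (∀ w ∈ W, g w = g' w) → g = g') (h1 : P1 h F W)
    (hF : 2 * h < F.card) {F' : Finset (α → Bool)} (hF' : F' ⊆ F)
    (hmax : ∀ g ∈ F, ∃ g' ∈ F', ∀ v ∈ W, v ≠ w → g v = g' v) : F.card ≤ F'.card + 1 := by
  classical
  by_contra hcon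
  push Not at hcon
  -- two functions outside of `F'`
  have h2 : 2 ≤ (F \ F').card := by
    have := Finset.card_sdiff_add_card_eq_card hF'
    omega
  obtain ⟨g1, g2, hg1, hg2, hne⟩ := (Finset.one_lt_card_iff.1 h2)
  rw [Finset.mem_sdiff] at hg1 hg2
  obtain ⟨k1, hk1, e1⟩ := hmax g1 hg1.1
  obtain ⟨k2, hk2, e2⟩ := hmax g2 hg2.1
  have n1 : g1 w ≠ k1 w := by
    intro e
    have : g1 = k1 := hW g1 hg1.1 k1 (hF' hk1) (fun v hv => by
      by_cases hvw : v = w
      · rw [hvw]; exact e
      · exact e1 v hv hvw)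
    exact hg1.2 (this ▸ hk1)
  have n2 : g2 w ≠ k2 w := by
    intro e
    have : g2 = k2 := hW g2 hg2.1 k2 (hF' hk2) (fun v hv => by
      by_cases hvw : v = w
      · rw [hvw]; exact e
      · exact e2 v hv hvw)
    exact hg2.2 (this ▸ hk2)
  by_cases hv : ∃ v ∈ W, v ≠ w ∧ g1 v ≠ g2 v
  · obtain ⟨v, hvW, hvw, hne2⟩ := hv
    have hs : ∀ s t : Bool, ∃ g ∈ F, g w = s ∧ g v = t := by
      intro s t
      have a1 := e1 v hvW hvw
      have a2 := e2 v hvW hvw
      by_cases ht : g1 v = t
      · by_cases hs : g1 w = s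
        · exact ⟨g1, hg1.1, hs, ht⟩
        · exact ⟨k1, hF' hk1, bne3 (fun e => n1 e.symm) hs, by rw [← a1, ht]⟩
      · have ht' : g2 v = t := bne3 (fun e => hne2 e.symm) ht
        by_cases hs : g2 w = s
        · exact ⟨g2, hg2.1, hs, ht'⟩
        · exact ⟨k2, hF' hk2, bne3 (fun e => n2 e.symm) hs, by rw [← a2, ht']⟩
    exact absurd (card_le_of_shatter hh hW h1 hw hvW hs) (by omega)
  · push Not at hv
    have h3 : g1 w ≠ g2 w := by
      intro e
      exact hne (hW g1 hg1.1 g2 hg2.1 (fun v hvW => by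
        by_cases hvw : v = w
        · rw [hvw]; exact e
        · exact hv v hvW hvw))
    have h4 : k1 = g2 := hW k1 (hF' hk1) g2 hg2.1 (fun v hvW => by
      by_cases hvw : v = w
      · rw [hvw]; exact bne3 (fun e => n1 e.symm) h3
      · rw [← e1 v hvW hvw]; exact hv v hvW hvw)
    exact hg2.2 (h4 ▸ hk1)

end Pool.Agent.W2helper61.Cheat
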