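import Pool.Agent.W2helper61.Cheat.Alg

/-!
Correctness of the candidate lists.
-/

set_option autoImplicit false

namespace Pool.Agent.W2helper61.Cheat

/-- `ans` is the list of the answers of the oracle `A` to the first queries of the oracle
machine with next-move function `F` on input `x` -/
def IsRun (F : Str → Str) (A : Str → Bool) (x : Str) (ans : List Bool) : Prop :=
  ∀ (j : ℕ) (b : Bool), ans[j]? = some b → ∃ q, F (pairS x (ans.take j)) = false :: q ∧ A q = b

theorem IsRun.take {F : Str → Str} {A : Str → Bool} {x : Str} {ans : List Bool}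
    (h : IsRun F A x ans) (m : ℕ) : IsRun F A x (ans.take m) := by
  intro j b hj
  have hjm : j < m := by
    by_contra hcon
    rw [List.getElem?_eq_none (by rw [List.length_take]; omega)] at hj
    simp at hj
  rw [List.getElem?_take_of_lt hjm] at hj
  obtain ⟨q, h1, h2⟩ := h j b hj
  refine ⟨q, ?_, h2⟩
  rw [List.take_take, Nat.min_eq_left hjm.le]
  exact h1

section

variable {F1 F2 : Str → Str} {k R : ℕ}

theorem qOK_spec {m : Str} {β : Bool} {v : Asg} (h : qOK m β v = true) :
    ∃ q, m = false :: q ∧ ∀ c, look v q = some c → c = β := by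
  unfold qOK at h
  rcases m with _ | ⟨b, q⟩
  · simp at h
  · cases b
    · refine ⟨q, rfl, ?_⟩
      intro c hc
      simp only [hc, beq_iff_eq] at h
      exact h
    · simp at h

theorem okT_spec {v : Asg} {t : List Str} (h : okT F1 k v t = true) :
    ∃ b : List Bool, b.length = k ∧ ∃ i ≤ k, F1 (pairS (tupS t) (b.take i)) =
      true :: t.map (gv v) ∧ ∀ j < i, ∃ q, F1 (pairS (tupS t) (b.take j)) = false :: q ∧
        ∀ c, look v q = some c → c = b.getD j false := by
  unfold okT at h
  obtain ⟨b, hb, h⟩ := List.any_eq_true.1 h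
  obtain ⟨i, hi, h⟩ := List.any_eq_true.1 h
  rw [Bool.and_eq_true, beq_iff_eq] at h
  refine ⟨b, (mem_allB k b).1 hb, i, by have := List.mem_range.1 hi; omega, h.1, ?_⟩
  intro j hj
  exact qOK_spec (List.all_eq_true.1 h.2 j (List.mem_range.2 hj))

theorem okT_true {A : Str → Bool} {W : List Str} {t : List Str} (ht : ∀ a ∈ t, a ∈ W)
    (H : ∃ ans, IsRun F1 A (tupS t) ans ∧ ans.length ≤ k ∧
      F1 (pairS (tupS t) ans) = true :: t.map A) : okT F1 k (asg W A) t = true := by
  obtain ⟨ans, h1, h2, h3⟩ := H
  unfold okT
  refine List.any_eq_true.2 ⟨ans ++ List.replicate (k - ans.length) false, (mem_allB k _).2 (by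
    rw [List.length_append, List.length_replicate]; omega), ?_⟩
  refine List.any_eq_true.2 ⟨ans.length, List.mem_range.2 (by omega), ?_⟩
  rw [Bool.and_eq_true, beq_iff_eq]
  constructor
  · rw [List.take_left, h3]
    congr 1
    exact List.map_congr_left (fun a ha => (gv_asg_mem (ht a ha)).symm)
  · refine List.all_eq_true.2 ?_
    intro j hj
    have hj' := List.mem_range.1 hj
    obtain ⟨q, h4, h5⟩ := h1 j ans[j] (List.getElem?_eq_getElem hj')
    have e1 : (ans ++ List.replicate (k - ans.length) false).take j = ans.take j := by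
      rw [List.take_append_of_le_length hj'.le]
    have e2 : (ans ++ List.replicate (k - ans.length) false).getD j false = ans[j] := by
      rw [List.getD_append _ _ _ _ hj', List.getD_eq_getElem _ _ hj']
    rw [e1, e2, h4]
    unfold qOK
    by_cases hq : q ∈ W
    · simp only [look_asg_mem hq, h5, beq_self_eq_true]
    · simp only [look_asg_notMem hq]

theorem okS_true {A : Str → Bool} {W : List Str} {s : Str} (hs : s ∈ W)
    (H : ∃ ans, IsRun F2 A s ans ∧ ans.length < R ∧ F2 (pairS s ans) = [true, A s])
    (Hq : ∀ ans q, IsRun F2 A s ans → F2 (pairS s ans) = false :: q → q.length < s.length) :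
    okS F2 R (asg W A) s = true := by
  obtain ⟨ans, h1, h2, h3⟩ := H
  have key : ∀ j : ℕ, ∃ m ≤ ans.length, (ansStep F2 (asg W A) s)^[j] [] = ans.take m ∧
      (m = j ∨ m = ans.length ∨ ∃ q, q ∉ W ∧ F2 (pairS s (ans.take m)) = false :: q) := by
    intro j
    induction j with
    | zero => exact ⟨0, Nat.zero_le _, by simp, Or.inl rfl⟩
    | succ j ih =>
      obtain ⟨m, hm, e, h⟩ := ih
      rw [Function.iterate_succ_apply', e]
      by_cases hm' : m = ans.length
      · refine ⟨m, hm, ?_, Or.inr (Or.inl hm')⟩
        unfold ansStep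
        have e1 : ans.take m = ans := by rw [hm', List.take_length]
        rw [e1, h3]
      · have hlt : m < ans.length := lt_of_le_of_ne hm hm'
        obtain ⟨q, h4, h5⟩ := h1 m ans[m] (List.getElem?_eq_getElem hlt)
        have hql := Hq _ _ (h1.take m) h4
        by_cases hq : q ∈ W
        · have hmj : m = j := by
            rcases h with h | h | ⟨q', hq', h⟩
            · exact h
            · exact absurd h hm'
            · rw [h4, List.cons.injEq] at h
              rw [← h.2] at hq'
              exact absurd hq hq'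
          refine ⟨m + 1, hlt, ?_, Or.inl (by rw [hmj])⟩
          unfold ansStep
          rw [h4]
          simp only [hql, if_true, look_asg_mem hq, h5]
          rw [List.take_succ_eq_append_getElem hlt]
        · refine ⟨m, hm, ?_, Or.inr (Or.inr ⟨q, hq, h4⟩)⟩
          unfold ansStep
          rw [h4]
          simp only [hql, if_true, look_asg_notMem hq]
  obtain ⟨m, hm, e, h⟩ := key R
  unfold okS
  rw [Bool.and_eq_true, decide_eq_true_eq]
  have e' : fin F2 R (asg W A) s = ans.take m := e
  rw [e']
  refine ⟨by rw [List.length_take]; omega, ?_⟩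
  rcases h with h | h | ⟨q, hq, h⟩
  · omega
  · have e1 : ans.take m = ans := by rw [h, List.take_length]
    rw [e1, h3]
    simp only [gv_asg_mem hs, beq_self_eq_true]
  · have hql := Hq _ _ (h1.take m) h
    rw [h]
    simp only [hql, decide_true, look_asg_notMem hq, Option.isNone_none, Bool.and_self]

/-! ### Monotonicity -/

/-- `v'` extends `v` -/
def Ext (v v' : Asg) : Prop := ∀ q c, look v q = some c → look v' q = some c

theorem ansStep_ext {v v' : Asg} (h : Ext v v') (s : Str) (j : ℕ) :
    (ansStep F2 v s)^[j] [] = (ansStep F2 v' s)^[j] [] ∨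
    ((∃ q, F2 (pairS s ((ansStep F2 v s)^[j] [])) = false :: q ∧ q.length < s.length ∧
      look v q = none) ∧ ((ansStep F2 v s)^[j] []).length < ((ansStep F2 v' s)^[j] []).length) := by
  induction j with
  | zero => left; rfl
  | succ j ih =>
    rw [Function.iterate_succ_apply', Function.iterate_succ_apply']
    rcases ih with ih | ⟨⟨q, h1, h2, h3⟩, h4⟩
    · rw [← ih]
      generalize (ansStep F2 v s)^[j] [] = a
      rcases hF : F2 (pairS s a) with _ | ⟨b, q⟩
      · left; simp only [ansStep, hF]
      · cases b
        · by_cases hq : q.length < s.length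
          · rcases hv : look v q with _ | c
            · rcases hv' : look v' q with _ | c'
              · left; simp only [ansStep, hF, hv, hv']
              · right
                have e1 : ansStep F2 v s a = a := by simp only [ansStep, hF, hv, hq, if_true]
                have e2 : ansStep F2 v' s a = a ++ [c'] := by
                  simp only [ansStep, hF, hv', hq, if_true]
                rw [e1, e2]
                exact ⟨⟨q, hF, hq, hv⟩, by simp⟩
            · left
              simp only [ansStep, hF, hv, h q c hv]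
          · left; simp only [ansStep, hF, hq, if_false]
        · left; simp only [ansStep, hF]
    · right
      have e1 : ansStep F2 v s ((ansStep F2 v s)^[j] []) = (ansStep F2 v s)^[j] [] := by
        unfold ansStep at h1 ⊢
        rw [h1]
        simp only [h2, if_true, h3]
      rw [e1]
      refine ⟨⟨q, h1, h2, h3⟩, lt_of_lt_of_le h4 ?_⟩
      generalize (ansStep F2 v' s)^[j] [] = a
      unfold ansStep
      rcases F2 (pairS s a) with _ | ⟨b, q⟩
      · exact le_refl _
      · cases b
        · by_cases hq : q.length < s.length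
          · rcases hv : look v' q with _ | c <;> simp [hq, hv]
          · simp [hq]
        · exact le_refl _

theorem okS_mono {v v' : Asg} (h : Ext v v') {s : Str} (hg : gv v s = gv v' s)
    (hok : okS F2 R v' s = true) : okS F2 R v s = true := by
  unfold okS at hok ⊢
  rw [Bool.and_eq_true, decide_eq_true_eq] at hok ⊢
  rcases ansStep_ext (F2 := F2) h s R with e | ⟨⟨q, h1, h2, h3⟩, h4⟩
  · have e' : fin F2 R v s = fin F2 R v' s := e
    rw [e']
    refine ⟨hok.1, ?_⟩
    have h5 := hok.2
    rcases hF : F2 (pairS s (fin F2 R v' s)) with _ | ⟨b, q⟩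
    · rw [hF] at h5; exact h5
    · rw [hF] at h5
      cases b
      · simp only [Bool.and_eq_true] at h5 ⊢
        refine ⟨h5.1, ?_⟩
        rcases hv : look v q with _ | c
        · rfl
        · rw [h q c hv] at h5
          exact h5.2
      · simp only at h5 ⊢
        rw [hg]; exact h5
  · have h1' : F2 (pairS s (fin F2 R v s)) = false :: q := h1
    have h4' : (fin F2 R v s).length < (fin F2 R v' s).length := h4
    refine ⟨by omega, ?_⟩
    rw [h1']
    simp only [h2, decide_true, h3, Option.isNone_none, Bool.and_self]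

theorem ext_asg {W W' : List Str} (g : Str → Bool) (h : ∀ w ∈ W, w ∈ W') :
    Ext (asg W g) (asg W' g) := by
  intro q c hc
  by_cases hq : q ∈ W
  · rw [look_asg_mem hq] at hc
    rw [look_asg_mem (h q hq)]
    exact hc
  · rw [look_asg_notMem hq] at hc
    exact absurd hc (by simp)

theorem qOK_mono {v v' : Asg} (h : Ext v v') {m : Str} {β : Bool} (hok : qOK m β v' = true) :
    qOK m β v = true := by
  unfold qOK at hok ⊢
  rcases m with _ | ⟨b, q⟩
  · exact hok
  · cases b
    · rcases hv : look v q with _ | c
      · simp only [hv]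
      · simp only [h q c hv] at hok
        simp only [hv]
        exact hok
    · exact hok

theorem okT_mono {W W' : List Str} {g : Str → Bool} (h : ∀ w ∈ W, w ∈ W') {t : List Str}
    (ht : ∀ a ∈ t, a ∈ W) (hok : okT F1 k (asg W' g) t = true) :
    okT F1 k (asg W g) t = true := by
  unfold okT at hok ⊢
  obtain ⟨b, hb, hok⟩ := List.any_eq_true.1 hok
  obtain ⟨i, hi, hok⟩ := List.any_eq_true.1 hok
  refine List.any_eq_true.2 ⟨b, hb, List.any_eq_true.2 ⟨i, hi, ?_⟩⟩
  rw [Bool.and_eq_true] at hok ⊢
  have e : t.map (gv (asg W g)) = t.map (gv (asg W' g)) :=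
    List.map_congr_left (fun a ha => by rw [gv_asg_mem (ht a ha), gv_asg_mem (h a (ht a ha))])
  rw [e]
  refine ⟨hok.1, List.all_eq_true.2 ?_⟩
  intro j hj
  exact qOK_mono (ext_asg g h) (List.all_eq_true.1 hok.2 j hj)

theorem isNone_look_asg (W : List Str) (g : Str → Bool) (s : Str) :
    (look (asg W g) s).isNone = true ↔ s ∉ W := by
  by_cases h : s ∈ W
  · simp [look_asg_mem h, h]
  · simp [look_asg_notMem h, h]

theorem okF_spec {x : Str} {S : List Str} {D : List (List Bool)} {W : List Str}
    {g : Str → Bool} : okF F1 F2 k R x S D (asg W g) = true ↔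
    (∀ t : List Str, t.length = 2 ^ k - 1 → (∀ a ∈ t, a ∈ W) → okT F1 k (asg W g) t = true) ∧
    (∀ s ∈ S, s ∈ W → okS F2 R (asg W g) s = true) ∧
    ((∀ s ∈ x :: S, s ∈ W) → g x = inD D (S.map g)) := by
  unfold okF
  rw [Bool.and_eq_true, Bool.and_eq_true, asg_fst, List.all_eq_true, List.all_eq_true,
    Bool.or_eq_true, List.any_eq_true, beq_iff_eq]
  refine and_congr ⟨fun h t h1 h2 => h t ((mem_tuples _ _ _).2 ⟨h1, h2⟩),
    fun h t ht => h t ((mem_tuples _ _ _).1 ht).1 ((mem_tuples _ _ _).1 ht).2⟩
    (and_congr ⟨?_, ?_⟩ ⟨?_, ?_⟩)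
  · intro h s hs hsW
    have := h s hs
    rw [Bool.or_eq_true, isNone_look_asg] at this
    exact this.resolve_left (not_not.2 hsW)
  · intro h s hs
    rw [Bool.or_eq_true, isNone_look_asg]
    by_cases hsW : s ∈ W
    · exact Or.inr (h s hs hsW)
    · exact Or.inl hsW
  · intro h hall
    rcases h with ⟨s, hs, h⟩ | h
    · rw [isNone_look_asg] at h
      exact absurd (hall s hs) h
    · rw [gv_asg_mem (hall x (by simp))] at h
      rw [h]
      congr 1
      exact List.map_congr_left (fun a ha => gv_asg_mem (hall a (List.mem_cons_of_mem _ ha)))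
  · intro h
    by_cases hall : ∀ s ∈ x :: S, s ∈ W
    · right
      rw [gv_asg_mem (hall x (by simp)), h hall]
      congr 1
      exact List.map_congr_left
        (fun a ha => (gv_asg_mem (hall a (List.mem_cons_of_mem _ ha))).symm)
    · left
      push Not at hall
      obtain ⟨s, hs, hsW⟩ := hall
      exact ⟨s, hs, (isNone_look_asg W g s).2 hsW⟩

theorem okF_mono {x : Str} {S : List Str} {D : List (List Bool)} {W W' : List Str}
    {g : Str → Bool} (h : ∀ w ∈ W, w ∈ W') (hok : okF F1 F2 k R x S D (asg W' g) = true) :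
    okF F1 F2 k R x S D (asg W g) = true := by
  rw [okF_spec] at hok ⊢
  obtain ⟨h1, h2, h3⟩ := hok
  refine ⟨fun t ht htW => okT_mono h htW (h1 t ht (fun a ha => h a (htW a ha))),
    fun s hs hsW => okS_mono (ext_asg g h) (by rw [gv_asg_mem hsW, gv_asg_mem (h s hsW)])
      (h2 s hs (h s hsW)), fun hall => h3 (fun s hs => h s (hall s hs))⟩

/-! ### Pattern counts -/

/-- the output `o` on the answers `b` -/
def Outp (F1 : Str → Str) (k : ℕ) (tc : Str) (b : List Bool) (o : List Bool) : Prop :=
  ∃ i ≤ k, F1 (pairS tc (b.take i)) = true :: o ∧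
    ∀ j < i, ∃ q, F1 (pairS tc (b.take j)) = false :: q

theorem Outp.unique {tc : Str} {b o o' : List Bool} (h : Outp F1 k tc b o)
    (h' : Outp F1 k tc b o') : o = o' := by
  obtain ⟨i, hi, h1, h2⟩ := h
  obtain ⟨i', hi', h1', h2'⟩ := h'
  have : i = i' := by
    rcases lt_trichotomy i i' with hlt | heq | hgt
    · obtain ⟨q, hq⟩ := h2' i hlt
      rw [h1] at hq
      exact absurd hq (by simp)
    · exact heq
    · obtain ⟨q, hq⟩ := h2 i' hgt
      rw [h1'] at hq
      exact absurd hq (by simp)
  subst this
  rw [h1] at h1'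
  simpa using h1'

open Classical in
/-- the candidates `G` on the nodup list `W` are exactly the consistent ones -/
structure Good (F1 F2 : Str → Str) (k R : ℕ) (x : Str) (S : List Str) (D : List (List Bool))
    (W : List Str) (G : List Asg) : Prop where
  nodupW : W.Nodup
  nodupG : G.Nodup
  mem : ∀ v, v ∈ G ↔ (∃ g, v = asg W g) ∧ okF F1 F2 k R x S D v = true

variable {x : Str} {S : List Str} {D : List (List Bool)} {W : List Str} {G : List Asg}

theorem Good.eq_asg (H : Good F1 F2 k R x S D W G) {v : Asg} (hv : v ∈ G) :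
    v = asg W (gv v) := by
  obtain ⟨⟨g, rfl⟩, _⟩ := (H.mem v).1 hv
  exact (asg_gv W g).symm

theorem Good.okF (H : Good F1 F2 k R x S D W G) {v : Asg} (hv : v ∈ G) :
    okF F1 F2 k R x S D v = true := ((H.mem v).1 hv).2

open Classical in
/-- the family of functions -/
noncomputable def fam (G : List Asg) : Finset (Str → Bool) := (G.map gv).toFinset

theorem mem_fam {g : Str → Bool} : g ∈ fam G ↔ ∃ v ∈ G, gv v = g := by
  classical
  unfold fam
  simp

theorem Good.card_fam (H : Good F1 F2 k R x S D W G) : (fam G).card = G.length := by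
  classical
  unfold fam
  rw [List.toFinset_card_of_nodup, List.length_map]
  refine H.nodupG.map_on ?_
  intro v hv v' hv' e
  rw [H.eq_asg hv, H.eq_asg hv', e]

theorem Good.asg_mem (H : Good F1 F2 k R x S D W G) {g : Str → Bool} (hg : g ∈ fam G) :
    asg W g ∈ G := by
  obtain ⟨v, hv, rfl⟩ := mem_fam.1 hg
  rw [← H.eq_asg hv]
  exact hv

theorem Good.gv_asg (H : Good F1 F2 k R x S D W G) {g : Str → Bool} (hg : g ∈ fam G) :
    gv (asg W g) = g := by
  obtain ⟨v, hv, rfl⟩ := mem_fam.1 hg
  rw [← H.eq_asg hv]

theorem Good.sep (H : Good F1 F2 k R x S D W G) : ∀ g ∈ fam G, ∀ g' ∈ fam G,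
    (∀ w ∈ W, g w = g' w) → g = g' := by
  intro g hg g' hg' e
  rw [← H.gv_asg hg, ← H.gv_asg hg', asg_congr e]

theorem two_h (hk : 2 ≤ k) : 2 * 2 ^ (k - 1) = 2 ^ k := by
  rw [← pow_succ']; congr 1; omega

theorem h_ge (hk : 2 ≤ k) : 2 ≤ 2 ^ (k - 1) := by
  calc 2 = 2 ^ 1 := rfl
    _ ≤ 2 ^ (k - 1) := Nat.pow_le_pow_right (by norm_num) (by omega)

/-- counting through an injection into the branches -/
theorem card_le_branches {m : ℕ} (F' : Finset (Str → Bool)) (φ : (Str → Bool) → List Bool)
    (h1 : ∀ g ∈ F', (φ g).length = m) (h2 : ∀ g ∈ F', ∀ g' ∈ F', φ g = φ g' → g = g') :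
    F'.card ≤ 2 ^ m := by
  classical
  calc F'.card ≤ (allB m).toFinset.card := Finset.card_le_card_of_injOn φ
        (fun g hg => by
          simp only [List.coe_toFinset, Set.mem_ofPred_eq]
          exact (mem_allB m _).2 (h1 g hg))
        (fun g hg g' hg' e => h2 g hg g' hg' e)
    _ ≤ (allB m).length := List.toFinset_card_le _
    _ = 2 ^ m := length_allB m

theorem Good.P1 (hk : 2 ≤ k) (H : Good F1 F2 k R x S D W G) : P1 (2 ^ (k - 1)) (fam G) W := by
  classical
  intro t ht htW F' hF' hinj
  rw [two_h hk] at ht ⊢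
  have hb : ∀ g ∈ F', ∃ b : List Bool, b.length = k ∧ Outp F1 k (tupS t) b (t.map g) := by
    intro g hg
    have h1 := H.okF (H.asg_mem (hF' hg))
    obtain ⟨b, hb, i, hi, h2, h3⟩ := okT_spec ((okF_spec.1 h1).1 t ht htW)
    refine ⟨b, hb, i, hi, ?_, ?_⟩
    · rw [h2, H.gv_asg (hF' hg)]
    · intro j hj
      obtain ⟨q, hq, _⟩ := h3 j hj
      exact ⟨q, hq⟩
  choose! φ hφ1 hφ2 using hb
  refine card_le_branches F' φ hφ1 ?_
  intro g hg g' hg' e
  have h2 := hφ2 g hg
  rw [e] at h2
  have h3 := h2.unique (hφ2 g' hg')
  refine hinj g hg g' hg' (fun a ha => ?_)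
  exact List.map_inj_left.1 h3 a ha

theorem Good.P2 (hk : 2 ≤ k) (H : Good F1 F2 k R x S D W G) {Q : List Str}
    (hQW : ∀ q ∈ Q, q ∈ W) (hx : x ∈ W) (haux : ∀ u ∈ aux F1 k Q, u ∈ W) :
    P2 (2 ^ (k - 1)) (fam G) Q W := by
  classical
  intro t ht htQ
  rw [two_h hk] at ht
  by_cases hu : ∃ u, F1 (pairS (tupS t) []) = false :: u
  · obtain ⟨u, hu⟩ := hu
    have huW : u ∈ W := by
      apply haux
      unfold aux
      refine List.mem_flatMap.2 ⟨t, (mem_tuples _ _ _).2 ⟨ht, htQ⟩, ?_⟩
      rw [hu]
      simp
    refine ⟨u, huW, ?_⟩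
    intro F' hF' hinj β hβ
    have hb : ∀ g ∈ F', ∃ b : List Bool, b.length = k - 1 ∧
        Outp F1 k (tupS t) (β :: b) (t.map g) := by
      intro g hg
      have h1 := H.okF (H.asg_mem (hF' hg))
      obtain ⟨b, hb, i, hi, h2, h3⟩ := okT_spec
        ((okF_spec.1 h1).1 t ht (fun a ha => hQW a (htQ a ha)))
      rcases b with _ | ⟨c, b⟩
      · simp at hb; omega
      · have hc : c = β := by
          rcases Nat.eq_zero_or_pos i with hi0 | hi0
          · rw [hi0, List.take_zero, hu] at h2
            exact absurd h2 (by simp)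
          · obtain ⟨q, h4, h5⟩ := h3 0 hi0
            rw [List.take_zero, hu, List.cons.injEq] at h4
            have h6 := h5 (g u) (by rw [← h4.2]; exact look_asg_mem huW)
            rw [hβ g hg] at h6
            exact h6.symm
        subst hc
        refine ⟨b, by simpa using Nat.eq_sub_of_add_eq hb, i, hi, ?_, ?_⟩
        · rw [h2, H.gv_asg (hF' hg)]
        · intro j hj
          obtain ⟨q, hq, _⟩ := h3 j hj
          exact ⟨q, hq⟩
    choose! φ hφ1 hφ2 using hb
    refine card_le_branches F' φ hφ1 ?_
    intro g hg g' hg' e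
    have h2 := hφ2 g hg
    rw [e] at h2
    have h3 := h2.unique (hφ2 g' hg')
    refine hinj g hg g' hg' (fun a ha => ?_)
    exact List.map_inj_left.1 h3 a ha
  · refine ⟨x, hx, ?_⟩
    intro F' hF' hinj β _
    refine le_trans (Finset.card_le_one.2 ?_) ((by norm_num : 1 ≤ 2).trans (h_ge hk))
    intro g hg g' hg'
    have hb : ∀ g ∈ F', F1 (pairS (tupS t) []) = true :: t.map g := by
      intro g hg
      have h1 := H.okF (H.asg_mem (hF' hg))
      obtain ⟨b, hb, i, hi, h2, h3⟩ := okT_spec
        ((okF_spec.1 h1).1 t ht (fun a ha => hQW a (htQ a ha)))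
      rcases Nat.eq_zero_or_pos i with hi0 | hi0
      · rw [hi0, List.take_zero, H.gv_asg (hF' hg)] at h2
        exact h2
      · obtain ⟨q, h4, _⟩ := h3 0 hi0
        rw [List.take_zero] at h4
        exact absurd ⟨q, h4⟩ hu
    have h1 := hb g hg
    rw [hb g' hg', List.cons.injEq] at h1
    exact hinj g hg g' hg' (fun a ha => (List.map_inj_left.1 h1.2 a ha).symm)

/-! ### The candidate lists -/

theorem memS_iff {W : List Str} {w : Str} : memS W w = true ↔ w ∈ W := by
  unfold memS
  rw [List.any_eq_true]
  constructor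
  · rintro ⟨u, hu, e⟩
    rw [beq_iff_eq] at e
    rwa [← e]
  · intro h
    exact ⟨w, h, by simp⟩

theorem good_step (hk : 2 ≤ k) (H : Good F1 F2 k R x S D W G) (hG : G.length ≤ W.length + 2 ^ k)
    {w : Str} (hw : w ∉ W) :
    Good F1 F2 k R x S D (w :: W)
      ((G.flatMap (fun v => [(w, true) :: v, (w, false) :: v])).filter
        (Cheat.okF F1 F2 k R x S D)) ∧
    ((G.flatMap (fun v => [(w, true) :: v, (w, false) :: v])).filter
        (Cheat.okF F1 F2 k R x S D)).length ≤ W.length + 1 + 2 ^ k := by
  classical
  have hgood : Good F1 F2 k R x S D (w :: W)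
      ((G.flatMap (fun v => [(w, true) :: v, (w, false) :: v])).filter
        (Cheat.okF F1 F2 k R x S D)) := by
    refine ⟨List.nodup_cons.2 ⟨hw, H.nodupW⟩, ?_, ?_⟩
    · refine List.Nodup.filter _ (List.nodup_flatMap.2 ⟨?_, ?_⟩)
      · intro v _
        simp
      · refine H.nodupG.imp ?_
        intro v v' hne
        simp only [Function.onFun]
        intro u hu hu'
        simp only [List.mem_cons, List.not_mem_nil, or_false] at hu hu'
        apply hne
        rcases hu with rfl | rfl <;> rcases hu' with h | h <;> simp at h <;> exact h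
    · intro v
      rw [List.mem_filter, List.mem_flatMap]
      constructor
      · rintro ⟨⟨v0, hv0, hv⟩, hok⟩
        refine ⟨?_, hok⟩
        have e := H.eq_asg hv0
        simp only [List.mem_cons, List.not_mem_nil, or_false] at hv
        have key : ∀ b : Bool, (w, b) :: v0 = asg (w :: W) (Function.update (gv v0) w b) := by
          intro b
          have e2 : asg (w :: W) (Function.update (gv v0) w b) =
              (w, b) :: asg W (Function.update (gv v0) w b) := by
            unfold asg
            rw [List.map_cons, Function.update_self]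
          rw [e2]
          congr 1
          rw [asg_congr (g' := gv v0)]
          · exact e
          · intro u hu
            rw [Function.update_of_ne]
            rintro rfl
            exact hw hu
        rcases hv with rfl | rfl
        · exact ⟨_, key true⟩
        · exact ⟨_, key false⟩
      · rintro ⟨⟨g, rfl⟩, hok⟩
        refine ⟨⟨asg W g, ?_, ?_⟩, hok⟩
        · exact (H.mem _).2 ⟨⟨g, rfl⟩, okF_mono (fun u hu => List.mem_cons_of_mem _ hu) hok⟩
        · have e2 : asg (w :: W) g = (w, g w) :: asg W g := rfl
          rw [e2]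
          cases g w <;> simp
  refine ⟨hgood, ?_⟩
  set G' := (G.flatMap (fun v => [(w, true) :: v, (w, false) :: v])).filter
        (Cheat.okF F1 F2 k R x S D) with hG'
  by_cases hc : G'.length ≤ 2 ^ k
  · omega
  push Not at hc
  have hupd : ∀ g ∈ fam G', ∀ g' ∈ fam G', (∀ u ∈ W, g u = g' u) →
      g' w = true → g' = Function.update g w true := by
    intro g hg g' hg' e hw'
    funext u
    by_cases huw : u = w
    · rw [huw, Function.update_self]
      exact hw'
    · rw [Function.update_of_ne huw]
      by_cases huW : u ∈ W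
      · exact (e u huW).symm
      · have h1 := hgood.gv_asg hg
        have h2 := hgood.gv_asg hg'
        have h3 : u ∉ w :: W := by
          rw [List.mem_cons, not_or]
          exact ⟨huw, huW⟩
        rw [← h1, ← h2, gv_asg_notMem h3, gv_asg_notMem h3]
  have h1 := card_le_succ (h_ge hk) (F := fam G') (W := w :: W) (w := w) (by simp) hgood.sep
    (hgood.P1 hk) (by rw [two_h hk, hgood.card_fam]; exact hc)
    (F' := (fam G').filter (fun g => g w = true ∨ Function.update g w true ∉ fam G'))
    (Finset.filter_subset _ _) (by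
      intro g hg
      by_cases hgw : g w = true ∨ Function.update g w true ∉ fam G'
      · exact ⟨g, Finset.mem_filter.2 ⟨hg, hgw⟩, fun _ _ _ => rfl⟩
      · push Not at hgw
        refine ⟨Function.update g w true, Finset.mem_filter.2 ⟨hgw.2, Or.inl (by simp)⟩, ?_⟩
        intro v _ hvw
        rw [Function.update_of_ne hvw])
  have h2 : ((fam G').filter (fun g => g w = true ∨ Function.update g w true ∉ fam G')).card ≤
      (G.toFinset).card := by
    refine Finset.card_le_card_of_injOn (fun g => asg W g) ?_ ?_
    · intro g hg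
      have hg' := (Finset.mem_filter.1 hg).1
      have h3 := hgood.asg_mem hg'
      have h4 := hgood.okF h3
      simp only [List.coe_toFinset, Set.mem_ofPred_eq]
      exact (H.mem _).2 ⟨⟨g, rfl⟩, okF_mono (fun u hu => List.mem_cons_of_mem _ hu) h4⟩
    · intro g hg g' hg' e
      have e' : ∀ u ∈ W, g u = g' u := by
        intro u hu
        have := congrArg (fun v => gv v u) e
        simp only [gv_asg_mem hu] at this
        exact this
      obtain ⟨hg1, hg2⟩ := Finset.mem_filter.1 hg
      obtain ⟨hg1', hg2'⟩ := Finset.mem_filter.1 hg'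
      by_cases hww : g w = g' w
      · exact hgood.sep g hg1 g' hg1' (fun u hu => by
          rcases List.mem_cons.1 hu with rfl | hu
          · exact hww
          · exact e' u hu)
      · exfalso
        by_cases hgt : g w = true
        · have h5 : g' w ≠ true := fun e => hww (by rw [hgt, e])
          have h6 := hupd g' hg1' g hg1 (fun u hu => (e' u hu).symm) hgt
          rcases hg2' with h | h
          · exact h5 h
          · exact h (h6 ▸ hg1)
        · have h5 : g' w = true := by
            have := bne hww
            cases h7 : g w <;> cases h8 : g' w <;> simp_all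
          have h6 := hupd g hg1 g' hg1' e' h5
          rcases hg2 with h | h
          · exact hgt h
          · exact h (h6 ▸ hg1')
  have h3 : (G.toFinset).card ≤ G.length := List.toFinset_card_le _
  rw [hgood.card_fam] at h1
  omega

theorem cands_spec (hk : 2 ≤ k) (x : Str) (S : List Str) (D : List (List Bool)) (L : List Str) :
    Good F1 F2 k R x S D (cands F1 F2 k R x S D L).1 (cands F1 F2 k R x S D L).2 ∧
    (cands F1 F2 k R x S D L).2.length ≤ (cands F1 F2 k R x S D L).1.length + 2 ^ k ∧
    ∀ u, u ∈ (cands F1 F2 k R x S D L).1 ↔ u ∈ L := by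
  have base : Good F1 F2 k R x S D [] [[]] := by
    refine ⟨List.nodup_nil, by simp, ?_⟩
    intro v
    have hok : okF F1 F2 k R x S D (asg [] (fun _ => false)) = true := by
      rw [okF_spec]
      refine ⟨?_, ?_, ?_⟩
      · intro t ht htW
        exfalso
        rcases t with _ | ⟨a, t⟩
        · have h2 : 2 ^ 2 ≤ 2 ^ k := Nat.pow_le_pow_right (by norm_num) hk
          simp at ht
          omega
        · exact absurd (htW a (by simp)) (by simp)
      · intro s _ hs
        exact absurd hs (by simp)
      · intro hall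
        exact absurd (hall x (by simp)) (by simp)
    constructor
    · intro hv
      rw [List.mem_singleton] at hv
      subst hv
      exact ⟨⟨fun _ => false, rfl⟩, hok⟩
    · rintro ⟨⟨g, rfl⟩, _⟩
      simp [asg]
  have key : ∀ (L : List Str) (st : List Str × List Asg), Good F1 F2 k R x S D st.1 st.2 →
      st.2.length ≤ st.1.length + 2 ^ k →
      Good F1 F2 k R x S D (L.foldl (cstep F1 F2 k R x S D) st).1
        (L.foldl (cstep F1 F2 k R x S D) st).2 ∧
      (L.foldl (cstep F1 F2 k R x S D) st).2.length ≤
        (L.foldl (cstep F1 F2 k R x S D) st).1.length + 2 ^ k ∧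
      ∀ u, u ∈ (L.foldl (cstep F1 F2 k R x S D) st).1 ↔ u ∈ L ∨ u ∈ st.1 := by
    intro L
    induction L with
    | nil => intro st h1 h2; exact ⟨h1, h2, by simp⟩
    | cons w L ih =>
      intro st h1 h2
      rw [List.foldl_cons]
      by_cases hw : w ∈ st.1
      · have e : cstep F1 F2 k R x S D st w = st := by
          unfold cstep
          rw [if_pos (memS_iff.2 hw)]
        rw [e]
        obtain ⟨h3, h4, h5⟩ := ih st h1 h2
        refine ⟨h3, h4, ?_⟩
        intro u
        rw [h5 u, List.mem_cons]
        constructor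
        · rintro (h | h)
          · exact Or.inl (Or.inr h)
          · exact Or.inr h
        · rintro ((rfl | h) | h)
          · exact Or.inr hw
          · exact Or.inl h
          · exact Or.inr h
      · obtain ⟨g1, g2⟩ := good_step hk h1 h2 hw
        have e : cstep F1 F2 k R x S D st w = (w :: st.1,
            (st.2.flatMap (fun v => [(w, true) :: v, (w, false) :: v])).filter
              (Cheat.okF F1 F2 k R x S D)) := by
          unfold cstep
          rw [if_neg (fun h => hw (memS_iff.1 h)), List.take_of_length_le g2]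
        rw [e]
        obtain ⟨h3, h4, h5⟩ := ih (w :: st.1,
            (st.2.flatMap (fun v => [(w, true) :: v, (w, false) :: v])).filter
              (Cheat.okF F1 F2 k R x S D)) g1 (by simpa using g2)
        refine ⟨h3, h4, ?_⟩
        intro u
        rw [h5 u]
        simp only [List.mem_cons]
        tauto
  obtain ⟨h1, h2, h3⟩ := key L ([], [[]]) base (by simpa using Nat.one_le_two_pow)
  exact ⟨h1, h2, fun u => by rw [cands, h3 u]; simp⟩

end

end Pool.Agent.W2helper61.Cheat
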