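import Pool.Agent.W2helper61.Cheat.Sem

/-!
Correctness of the algorithm.
-/

set_option autoImplicit false

namespace Pool.Agent.W2helper61.Cheat

section

variable {F1 F2 : Str → Str} {k R : ℕ}
variable {x : Str} {S : List Str} {D : List (List Bool)}

theorem restr_asg (W Q : List Str) (g : Str → Bool) :
    restr (asg W g) Q = asg (W.filter (fun w => memS Q w)) g := by
  unfold restr asg
  rw [List.filter_map]
  rfl

theorem look_restr_mem {W Q : List Str} {g : Str → Bool} {u : Str} (h : u ∈ W) (h' : u ∈ Q) :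
    look (restr (asg W g) Q) u = some (g u) := by
  rw [restr_asg, look_asg_mem]
  exact List.mem_filter.2 ⟨h, memS_iff.2 h'⟩

theorem ext_restr {W W' Q Q' : List Str} {g : Str → Bool} (hW : ∀ w ∈ W, w ∈ W')
    (hQ : ∀ w ∈ Q, w ∈ Q') : Ext (restr (asg W g) Q) (restr (asg W' g) Q') := by
  rw [restr_asg, restr_asg]
  apply ext_asg
  intro w hw
  obtain ⟨h1, h2⟩ := List.mem_filter.1 hw
  exact List.mem_filter.2 ⟨hW w h1, memS_iff.2 (hQ w (memS_iff.1 h2))⟩

theorem ext_restr' {W W' Q : List Str} {g : Str → Bool} (hW : ∀ w ∈ W, w ∈ W') :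
    Ext (restr (asg W g) Q) (asg W' g) := by
  rw [restr_asg]
  apply ext_asg
  intro w hw
  exact hW w (List.mem_filter.1 hw).1

theorem agree_iff {Q : List Str} {v v' : Asg} :
    agree Q v v' = true ↔ ∀ q ∈ Q, gv v q = gv v' q := by
  unfold agree
  rw [List.all_eq_true]
  simp

theorem common_iff {G : List Asg} {Q : List Str} {v : Asg} :
    common x G Q v = true ↔ ∃ v' ∈ G, gv v x ≠ gv v' x ∧ ∀ q ∈ Q, gv v q = gv v' q := by
  unfold common
  rw [List.any_eq_true]
  simp only [Bool.and_eq_true, agree_iff]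
  constructor
  · rintro ⟨v', h1, h2, h3⟩
    exact ⟨v', h1, by simpa using h2, h3⟩
  · rintro ⟨v', h1, h2, h3⟩
    exact ⟨v', h1, by simpa using h2, h3⟩

/-- few common vectors -/
theorem card_common (hk : 2 ≤ k) {W Q : List Str} {G : List Asg}
    (H : Good F1 F2 k R x S D W G) (hW : ∀ u, u ∈ W ↔ u ∈ x :: (S ++ Q))
    (hS : S.length ≤ 2 ^ k) :
    (G.filter (common x G Q)).length ≤ 2 ^ k + 2 ^ (2 ^ k + 1) := by
  classical
  by_cases hc : G.length ≤ 2 ^ k
  · exact (List.length_filter_le (common x G Q) G).trans (hc.trans (Nat.le_add_right _ _))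
  push Not at hc
  have hxW : x ∈ W := (hW x).2 (by simp)
  have hQW : ∀ q ∈ Q, q ∈ W := fun q hq => (hW q).2 (by simp [hq])
  -- all common vectors agree on `Q`
  have hagree : ∀ v ∈ G, ∀ v' ∈ G, common x G Q v = true → common x G Q v' = true →
      ∀ q ∈ Q, gv v q = gv v' q := by
    intro v hv v' hv' h h' q hq
    by_contra hne
    obtain ⟨u, hu, hux, huQ⟩ := common_iff.1 h
    obtain ⟨u', hu', hux', huQ'⟩ := common_iff.1 h'
    have hs : ∀ s t : Bool, ∃ g ∈ fam G, g x = s ∧ g q = t := by
      intro s t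
      by_cases ht : gv v q = t
      · by_cases hs : gv v x = s
        · exact ⟨gv v, mem_fam.2 ⟨v, hv, rfl⟩, hs, ht⟩
        · exact ⟨gv u, mem_fam.2 ⟨u, hu, rfl⟩, bne3 (fun e => hux e.symm) hs,
            by rw [← huQ q hq, ht]⟩
      · have ht' : gv v' q = t := bne3 (fun e => hne e.symm) ht
        by_cases hs : gv v' x = s
        · exact ⟨gv v', mem_fam.2 ⟨v', hv', rfl⟩, hs, ht'⟩
        · exact ⟨gv u', mem_fam.2 ⟨u', hu', rfl⟩, bne3 (fun e => hux' e.symm) hs,
            by rw [← huQ' q hq, ht']⟩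
    have := card_le_of_shatter (h_ge hk) H.sep (H.P1 hk) hxW (hQW q hq) hs
    rw [two_h hk, H.card_fam] at this
    omega
  have h1 : (G.filter (common x G Q)).length ≤ (allB (S.length + 1)).length := by
    have hnd : ((G.filter (common x G Q)).map (fun v => (x :: S).map (gv v))).Nodup := by
      refine (H.nodupG.filter _).map_on ?_
      intro v hv v' hv' e
      obtain ⟨hv1, hv2⟩ := List.mem_filter.1 hv
      obtain ⟨hv1', hv2'⟩ := List.mem_filter.1 hv'
      rw [H.eq_asg hv1, H.eq_asg hv1']
      apply asg_congr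
      intro w hw
      have hw' := (hW w).1 hw
      rw [List.mem_cons, List.mem_append] at hw'
      by_cases hwQ : w ∈ Q
      · exact hagree v hv1 v' hv1' hv2 hv2' w hwQ
      · have hwS : w ∈ x :: S := by
          rw [List.mem_cons]
          tauto
        exact List.map_inj_left.1 e w hwS
    have := hnd.subperm (l₂ := allB (S.length + 1)) (by
      intro b hb
      obtain ⟨v, _, rfl⟩ := List.mem_map.1 hb
      exact (mem_allB _ _).2 (by simp))
    have h2 := this.length_le
    rwa [List.length_map] at h2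
  rw [length_allB] at h1
  have h2 : 2 ^ (S.length + 1) ≤ 2 ^ (2 ^ k + 1) := Nat.pow_le_pow_right (by norm_num) (by omega)
  omega

theorem ansStep_cases (v : Asg) (s : Str) (a : List Bool) :
    ansStep F2 v s a = a ∨ ∃ q c, F2 (pairS s a) = false :: q ∧ q.length < s.length ∧
      look v q = some c ∧ ansStep F2 v s a = a ++ [c] := by
  rcases hF : F2 (pairS s a) with _ | ⟨b, q⟩
  · left; simp only [ansStep, hF]
  · cases b
    · by_cases hq : q.length < s.length
      · rcases hv : look v q with _ | c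
        · left; simp only [ansStep, hF, hv, ite_self]
        · right
          exact ⟨q, c, rfl, hq, hv, by simp only [ansStep, hF, hv, hq, if_true]⟩
      · left; simp only [ansStep, hF, hq, if_false]
    · left; simp only [ansStep, hF]

theorem iter_fix (v : Asg) (s : Str) (j : ℕ) :
    ((ansStep F2 v s)^[j] []).length = j ∨
      ansStep F2 v s ((ansStep F2 v s)^[j] []) = (ansStep F2 v s)^[j] [] := by
  induction j with
  | zero => left; rfl
  | succ j ih =>
    rw [Function.iterate_succ_apply']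
    rcases ih with ih | ih
    · rcases ansStep_cases (F2 := F2) v s ((ansStep F2 v s)^[j] []) with h | ⟨q, c, _, _, _, h⟩
      · right; rw [h, h]
      · left; rw [h, List.length_append, ih]; rfl
    · right; rw [ih, ih]

/-- the run on the queries of `Q` is part of the run on `W` -/
theorem run_cases {W Q : List Str} {g : Str → Bool} {s : Str}
    (hok : okS F2 R (asg W g) s = true) :
    (∃ a, fin F2 R (restr (asg W g) Q) s = a ∧ F2 (pairS s a) = [true, gv (asg W g) s]) ∨
    ∃ q, F2 (pairS s (fin F2 R (restr (asg W g) Q) s)) = false :: q ∧ q.length < s.length ∧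
      ¬ (q ∈ W ∧ q ∈ Q) ∧ (fin F2 R (restr (asg W g) Q) s).length < R := by
  unfold okS at hok
  rw [Bool.and_eq_true, decide_eq_true_eq] at hok
  rcases ansStep_ext (F2 := F2) (ext_restr' (Q := Q) (g := g) (fun w (hw : w ∈ W) => hw)) s R with
    e | ⟨⟨q, h1, h2, h3⟩, h4⟩
  · have e' : fin F2 R (restr (asg W g) Q) s = fin F2 R (asg W g) s := e
    rw [e']
    have h5 := hok.2
    rcases hF : F2 (pairS s (fin F2 R (asg W g) s)) with _ | ⟨b, q⟩
    · rw [hF] at h5; exact absurd h5 (by simp)
    · rw [hF] at h5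
      cases b
      · right
        simp only [Bool.and_eq_true, decide_eq_true_eq] at h5
        refine ⟨q, rfl, h5.1, ?_, hok.1⟩
        intro hq
        exact (isNone_look_asg W g q).1 h5.2 hq.1
      · left
        simp only [beq_iff_eq] at h5
        exact ⟨_, rfl, by rw [hF, h5]⟩
  · right
    refine ⟨q, h1, h2, ?_, ?_⟩
    · intro hq
      rw [look_restr_mem hq.1 hq.2] at h3
      exact absurd h3 (by simp)
    · exact lt_trans h4 hok.1

/-- the run is not complete -/
def Incomp (F2 : Str → Str) (R : ℕ) (Q : List Str) (v : Asg) (s : Str) : Prop :=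
  ∀ o, F2 (pairS s (fin F2 R (restr v Q) s)) ≠ true :: o

theorem rounds_succ (r : ℕ) : rounds F1 F2 k R x S D (r + 1) =
    rounds F1 F2 k R x S D r ++ newQ F1 F2 k R x S D (rounds F1 F2 k R x S D r) := by
  unfold rounds
  rw [Function.iterate_succ_apply']

theorem progress (hk : 2 ≤ k) (hS : S.length ≤ 2 ^ k) (r : ℕ) :
    ∀ v ∈ (cands F1 F2 k R x S D (x :: (S ++ rounds F1 F2 k R x S D r))).2,
      common x (cands F1 F2 k R x S D (x :: (S ++ rounds F1 F2 k R x S D r))).2
        (rounds F1 F2 k R x S D r) v = true →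
      ∀ s ∈ S, Incomp F2 R (rounds F1 F2 k R x S D r) v s →
        r ≤ (fin F2 R (restr v (rounds F1 F2 k R x S D r)) s).length := by
  induction r with
  | zero => intro v _ _ s _ _; exact Nat.zero_le _
  | succ r ih =>
    intro v hv hcom s hs hinc
    rw [rounds_succ] at hv hcom hinc ⊢
    set Q := rounds F1 F2 k R x S D r with hQ
    set N := newQ F1 F2 k R x S D Q with hN
    obtain ⟨H0, _, m0⟩ := cands_spec (F1 := F1) (F2 := F2) (R := R) hk x S D (x :: (S ++ Q))
    obtain ⟨H1, _, m1⟩ := cands_spec (F1 := F1) (F2 := F2) (R := R) hk x S D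
      (x :: (S ++ (Q ++ N)))
    have hNdef : N = (((cands F1 F2 k R x S D (x :: (S ++ Q))).2.filter
      (common x (cands F1 F2 k R x S D (x :: (S ++ Q))).2 Q)).take
      (2 ^ k + 2 ^ (2 ^ k + 1))).flatMap (fun v => S.flatMap (fun s => nq F2 R Q v s)) := rfl
    rw [List.take_of_length_le (card_common hk H0 m0 hS)] at hNdef
    set W0 := (cands F1 F2 k R x S D (x :: (S ++ Q))).1 with hW0
    set G0 := (cands F1 F2 k R x S D (x :: (S ++ Q))).2 with hG0
    set W1 := (cands F1 F2 k R x S D (x :: (S ++ (Q ++ N)))).1 with hW1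
    set G1 := (cands F1 F2 k R x S D (x :: (S ++ (Q ++ N)))).2 with hG1
    have hsub : ∀ w ∈ W0, w ∈ W1 := by
      intro w hw
      have h := (m0 w).1 hw
      rw [m1]
      simp only [List.mem_cons, List.mem_append] at h ⊢
      tauto
    have hQW1 : ∀ q ∈ Q ++ N, q ∈ W1 := by
      intro q hq
      rw [m1]
      simp only [List.mem_cons, List.mem_append] at hq ⊢
      tauto
    have hQW0 : ∀ q ∈ Q, q ∈ W0 := by
      intro q hq
      rw [m0]
      simp only [List.mem_cons, List.mem_append] at hq ⊢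
      tauto
    have hxW0 : x ∈ W0 := (m0 x).2 (by simp)
    have hsW0 : s ∈ W0 := (m0 s).2 (by simp [hs])
    have down : ∀ v ∈ G1, asg W0 (gv v) ∈ G0 := by
      intro v hv
      refine (H0.mem _).2 ⟨⟨gv v, rfl⟩, okF_mono hsub ?_⟩
      rw [← H1.eq_asg hv]
      exact H1.okF hv
    have hv0 := down v hv
    have hcom0 : common x G0 Q (asg W0 (gv v)) = true := by
      obtain ⟨v', hv', hne, hag⟩ := common_iff.1 hcom
      refine common_iff.2 ⟨asg W0 (gv v'), down v' hv', ?_, ?_⟩
      · rw [gv_asg_mem hxW0, gv_asg_mem hxW0]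
        exact hne
      · intro q hq
        rw [gv_asg_mem (hQW0 q hq), gv_asg_mem (hQW0 q hq)]
        exact hag q (List.mem_append_left _ hq)
    have ih1 := ih (asg W0 (gv v)) hv0 hcom0 s hs
    have hokS : okS F2 R (asg W0 (gv v)) s = true :=
      (okF_spec.1 (H0.okF hv0)).2.1 s hs hsW0
    -- comparison of the two runs
    have hve := H1.eq_asg hv
    have hext : Ext (restr (asg W0 (gv v)) Q) (restr v (Q ++ N)) := by
      rw [hve]
      have : gv (asg W1 (gv v)) = gv v := by rw [← hve]
      rw [this]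
      exact ext_restr hsub (fun q hq => List.mem_append_left _ hq)
    rcases run_cases (F2 := F2) (Q := Q) hokS with ⟨a, ha, hF⟩ | ⟨q, hF, hql, hqn, hlen⟩
    · exfalso
      rcases ansStep_ext (F2 := F2) hext s R with e | ⟨⟨q, h1, h2, h3⟩, h4⟩
      · have e' : fin F2 R (restr (asg W0 (gv v)) Q) s = fin F2 R (restr v (Q ++ N)) s := e
        have h6 := hinc [gv (asg W0 (gv v)) s]
        rw [← e', ha] at h6
        exact h6 hF
      · have e' : fin F2 R (restr (asg W0 (gv v)) Q) s =
          (ansStep F2 (restr (asg W0 (gv v)) Q) s)^[R] [] := rfl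
        rw [← e', ha, hF] at h1
        exact absurd h1 (by simp)
    · have hinc0 : Incomp F2 R Q (asg W0 (gv v)) s := by
        intro o
        rw [hF]
        simp
      have hr := ih1 hinc0
      have hqN : q ∈ N := by
        rw [hNdef]
        refine List.mem_flatMap.2 ⟨asg W0 (gv v), List.mem_filter.2 ⟨hv0, hcom0⟩,
          List.mem_flatMap.2 ⟨s, hs, ?_⟩⟩
        unfold nq
        rw [hF]
        simp [hql]
      rcases ansStep_ext (F2 := F2) hext s R with e | ⟨_, h4⟩
      · exfalso
        have e' : fin F2 R (restr (asg W0 (gv v)) Q) s = fin F2 R (restr v (Q ++ N)) s := e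
        rcases iter_fix (F2 := F2) (restr v (Q ++ N)) s R with h5 | h5
        · have h6 : (fin F2 R (restr v (Q ++ N)) s).length = R := h5
          rw [← e'] at h6
          omega
        · have h6 : ansStep F2 (restr v (Q ++ N)) s (fin F2 R (restr v (Q ++ N)) s) =
            fin F2 R (restr v (Q ++ N)) s := h5
          rw [← e'] at h6
          have hlook : look (restr v (Q ++ N)) q = some (gv v q) := by
            rw [hve, look_restr_mem (hQW1 q (List.mem_append_right _ hqN))
              (List.mem_append_right _ hqN)]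
            rw [gv_asg_mem (hQW1 q (List.mem_append_right _ hqN))]
          unfold ansStep at h6
          rw [hF] at h6
          simp [hql, hlook] at h6
      · have h4' : (fin F2 R (restr (asg W0 (gv v)) Q) s).length <
          (fin F2 R (restr v (Q ++ N)) s).length := h4
        omega

/-- after all rounds `x` is determined -/
theorem determined (hk : 2 ≤ k) (hS : S.length ≤ 2 ^ k) :
    ∀ v ∈ (cands F1 F2 k R x S D (x :: (S ++ rounds F1 F2 k R x S D R))).2,
    ∀ v' ∈ (cands F1 F2 k R x S D (x :: (S ++ rounds F1 F2 k R x S D R))).2,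
      (∀ q ∈ rounds F1 F2 k R x S D R, gv v q = gv v' q) → gv v x = gv v' x := by
  have hprog := progress (F1 := F1) (F2 := F2) (x := x) (S := S) (D := D) (R := R) hk hS R
  set Q := rounds F1 F2 k R x S D R with hQ
  obtain ⟨H, _, m⟩ := cands_spec (F1 := F1) (F2 := F2) (R := R) hk x S D (x :: (S ++ Q))
  set W := (cands F1 F2 k R x S D (x :: (S ++ Q))).1 with hW
  set G := (cands F1 F2 k R x S D (x :: (S ++ Q))).2 with hG
  intro v hv v' hv' hag
  by_contra hne
  have hcom : common x G Q v = true := common_iff.2 ⟨v', hv', hne, hag⟩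
  have hsW : ∀ s ∈ x :: S, s ∈ W := by
    intro s hs
    rw [m]
    simp only [List.mem_cons, List.mem_append] at hs ⊢
    tauto
  have hcomp : ∀ v ∈ G, common x G Q v = true → ∀ s ∈ S, ∃ a,
      fin F2 R (restr v Q) s = a ∧ F2 (pairS s a) = [true, gv v s] := by
    intro v hv hcom s hs
    have hve := H.eq_asg hv
    have hokS : okS F2 R (asg W (gv v)) s = true := by
      rw [← hve]
      have := (H.okF hv)
      rw [hve] at this ⊢
      exact (okF_spec.1 this).2.1 s hs (hsW s (List.mem_cons_of_mem _ hs))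
    rcases run_cases (F2 := F2) (Q := Q) hokS with h | ⟨q, hF, hql, hqn, hlen⟩
    · rw [← hve] at h
      exact h
    · rw [← hve] at hF hlen
      exfalso
      have := hprog v hv hcom s hs (by
        intro o
        rw [hF]
        simp)
      omega
  have hcom' : common x G Q v' = true :=
    common_iff.2 ⟨v, hv, fun e => hne e.symm, fun q hq => (hag q hq).symm⟩
  have hre : restr v Q = restr v' Q := by
    rw [H.eq_asg hv, H.eq_asg hv', restr_asg, restr_asg]
    apply asg_congr
    intro w hw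
    exact hag w (memS_iff.1 (List.mem_filter.1 hw).2)
  have hSeq : ∀ s ∈ S, gv v s = gv v' s := by
    intro s hs
    obtain ⟨a, ha, hF⟩ := hcomp v hv hcom s hs
    obtain ⟨a', ha', hF'⟩ := hcomp v' hv' hcom' s hs
    rw [hre, ha'] at ha
    rw [ha, hF] at hF'
    simpa using hF'
  apply hne
  have e1 := H.okF hv
  have e2 := H.okF hv'
  rw [H.eq_asg hv] at e1
  rw [H.eq_asg hv'] at e2
  rw [(okF_spec.1 e1).2.2 hsW, (okF_spec.1 e2).2.2 hsW]
  congr 1
  exact List.map_congr_left hSeq

theorem mem_newQ {Q : List Str} {q : Str} (h : q ∈ newQ F1 F2 k R x S D Q) :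
    ∃ s ∈ S, q.length < s.length := by
  unfold newQ at h
  obtain ⟨v, _, h⟩ := List.mem_flatMap.1 h
  obtain ⟨s, hs, h⟩ := List.mem_flatMap.1 h
  refine ⟨s, hs, ?_⟩
  unfold nq at h
  rcases hF : F2 (pairS s (fin F2 R (restr v Q) s)) with _ | ⟨b, u⟩
  · rw [hF] at h; simp at h
  · rw [hF] at h
    cases b
    · by_cases hu : u.length < s.length
      · simp only [hu, if_true, List.mem_singleton] at h
        rw [h]; exact hu
      · simp [hu] at h
    · simp at h

theorem mem_rounds {r : ℕ} {q : Str} (h : q ∈ rounds F1 F2 k R x S D r) :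
    ∃ s ∈ S, q.length < s.length := by
  induction r with
  | zero => simp [rounds] at h
  | succ r ih =>
    rw [rounds_succ, List.mem_append] at h
    rcases h with h | h
    · exact ih h
    · exact mem_newQ h

theorem inD_iff {D : List (List Bool)} {b : List Bool} : inD D b = true ↔ b ∈ D := by
  unfold inD
  rw [List.any_eq_true]
  constructor
  · rintro ⟨d, hd, e⟩
    rw [beq_iff_eq] at e
    rwa [← e]
  · intro h
    exact ⟨b, h, by simp⟩

/-- one step of the algorithm -/
theorem step_spec (hk : 2 ≤ k) {A : Str → Bool} (hS : S.length ≤ 2 ^ k)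
    (H1 : ∀ t : List Str, t.length = 2 ^ k - 1 → ∃ ans, IsRun F1 A (tupS t) ans ∧
      ans.length ≤ k ∧ F1 (pairS (tupS t) ans) = true :: t.map A)
    (H2 : ∀ s ∈ S, ∃ ans, IsRun F2 A s ans ∧ ans.length < R ∧ F2 (pairS s ans) = [true, A s])
    (H3 : ∀ s ∈ S, ∀ ans q, IsRun F2 A s ans → F2 (pairS s ans) = false :: q →
      q.length < s.length)
    (hA : A x = inD D (S.map A)) :
    (stepA F1 F2 k R x (S, D)).1.length ≤ 2 ^ k ∧
    (∀ s ∈ (stepA F1 F2 k R x (S, D)).1, ∃ s' ∈ S, s.length < s'.length) ∧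
    A x = inD (stepA F1 F2 k R x (S, D)).2 ((stepA F1 F2 k R x (S, D)).1.map A) := by
  classical
  have hdet := determined (F1 := F1) (F2 := F2) (x := x) (S := S) (D := D) (R := R) hk hS
  set Q := rounds F1 F2 k R x S D R with hQ
  obtain ⟨K0, _, m0⟩ := cands_spec (F1 := F1) (F2 := F2) (R := R) hk x S D (x :: (S ++ Q))
  obtain ⟨K1, _, m1⟩ := cands_spec (F1 := F1) (F2 := F2) (R := R) hk x S D
    (x :: (S ++ (Q ++ aux F1 k Q)))
  set W0 := (cands F1 F2 k R x S D (x :: (S ++ Q))).1 with hW0
  set G0 := (cands F1 F2 k R x S D (x :: (S ++ Q))).2 with hG0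
  set W1 := (cands F1 F2 k R x S D (x :: (S ++ (Q ++ aux F1 k Q)))).1 with hW1
  set G1 := (cands F1 F2 k R x S D (x :: (S ++ (Q ++ aux F1 k Q)))).2 with hG1
  have hsub : ∀ w ∈ W0, w ∈ W1 := by
    intro w hw
    have h := (m0 w).1 hw
    rw [m1]
    simp only [List.mem_cons, List.mem_append] at h ⊢
    tauto
  have hxW1 : x ∈ W1 := (m1 x).2 (by simp)
  have hxW0 : x ∈ W0 := (m0 x).2 (by simp)
  have hQW1 : ∀ q ∈ Q, q ∈ W1 := fun q hq => (m1 q).2 (by simp [hq])
  have hQW0 : ∀ q ∈ Q, q ∈ W0 := fun q hq => (m0 q).2 (by simp [hq])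
  have haux : ∀ q ∈ aux F1 k Q, q ∈ W1 := fun q hq => (m1 q).2 (by simp [hq])
  have hSW1 : ∀ q ∈ S, q ∈ W1 := fun q hq => (m1 q).2 (by simp [hq])
  -- the oracle is a candidate
  have htrue : asg W1 A ∈ G1 := by
    refine (K1.mem _).2 ⟨⟨A, rfl⟩, okF_spec.2 ⟨?_, ?_, ?_⟩⟩
    · intro t ht htW
      exact okT_true htW (H1 t ht)
    · intro s hs hsW
      exact okS_true hsW (H2 s hs) (H3 s hs)
    · intro _
      exact hA
  -- determination
  obtain ⟨T, hT1, hT2, hT3⟩ := exists_determining (h_ge hk) (F := fam G1) (Q := Q) (W := W1)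
    K1.sep hQW1 (K1.P1 hk) (K1.P2 hk hQW1 hxW1 haux) hxW1 (by
      intro g hg g' hg' hag
      have d1 : ∀ g ∈ fam G1, asg W0 g ∈ G0 := by
        intro g hg
        exact (K0.mem _).2 ⟨⟨g, rfl⟩, okF_mono hsub (K1.okF (K1.asg_mem hg))⟩
      have := hdet (asg W0 g) (d1 g hg) (asg W0 g') (d1 g' hg') (by
        intro q hq
        rw [gv_asg_mem (hQW0 q hq), gv_asg_mem (hQW0 q hq)]
        exact hag q hq)
      rw [gv_asg_mem hxW0, gv_asg_mem hxW0] at this
      exact this)
  rw [two_h hk] at hT1
  have hfind : ∃ T' ∈ ([] :: tuples (2 ^ k) Q), determ x G1 T' = true := by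
    have hdetT : ∀ T' : List Str, (∀ a ∈ T, a ∈ T') → determ x G1 T' = true := by
      intro T' hTT'
      unfold determ
      rw [List.all_eq_true]
      intro v hv
      rw [List.all_eq_true]
      intro v' hv'
      rw [Bool.or_eq_true, Bool.not_eq_true']
      by_cases hag : agree T' v v' = true
      · right
        rw [beq_iff_eq]
        exact hT3 (gv v) (mem_fam.2 ⟨v, hv, rfl⟩) (gv v') (mem_fam.2 ⟨v', hv', rfl⟩)
          (fun a ha => agree_iff.1 hag a (hTT' a ha))
      · left
        simpa using hag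
    rcases T with _ | ⟨a, T⟩
    · exact ⟨[], by simp, hdetT [] (by simp)⟩
    · refine ⟨(a :: T) ++ List.replicate (2 ^ k - (a :: T).length) a, ?_, hdetT _ (fun b hb =>
        List.mem_append_left _ hb)⟩
      refine List.mem_cons_of_mem _ ((mem_tuples _ _ _).2 ⟨?_, ?_⟩)
      · rw [List.length_append, List.length_replicate]; omega
      · intro b hb
        rcases List.mem_append.1 hb with hb | hb
        · exact hT2 b hb
        · rw [List.eq_of_mem_replicate hb]
          exact hT2 a (by simp)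
  have hsome : (([] :: tuples (2 ^ k) Q).find? (determ x G1)).isSome = true := by
    rw [List.find?_isSome]
    obtain ⟨T', h1, h2⟩ := hfind
    exact ⟨T', h1, h2⟩
  obtain ⟨T0, hT0⟩ := Option.isSome_iff_exists.1 hsome
  have hT0d : determ x G1 T0 = true := List.find?_some hT0
  have hT0m : T0 ∈ ([] :: tuples (2 ^ k) Q) := List.mem_of_find?_eq_some hT0
  have e1 : stepA F1 F2 k R x (S, D) =
      (T0, (allB 0 ++ allB (2 ^ k)).filter
        (fun d => G1.any (fun v => gv v x && (T0.map (gv v) == d)))) := by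
    unfold stepA
    simp only [← hQ, ← hG1, hT0, Option.getD_some]
  rw [e1]
  have hT0Q : T0.length ≤ 2 ^ k ∧ ∀ a ∈ T0, a ∈ Q := by
    rcases List.mem_cons.1 hT0m with rfl | h
    · simp
    · have := (mem_tuples _ _ _).1 h
      exact ⟨this.1.le, this.2⟩
  have hT0l : T0.length = 0 ∨ T0.length = 2 ^ k := by
    rcases List.mem_cons.1 hT0m with rfl | h
    · left; rfl
    · right; exact ((mem_tuples _ _ _).1 h).1
  refine ⟨hT0Q.1, fun s hs => mem_rounds (hT0Q.2 s hs), ?_⟩
  have hmapA : T0.map (gv (asg W1 A)) = T0.map A :=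
    List.map_congr_left (fun a ha => gv_asg_mem (hQW1 a (hT0Q.2 a ha)))
  have hdet0 : ∀ v ∈ G1, (∀ a ∈ T0, gv v a = A a) → gv v x = A x := by
    intro v hv hva
    have h1 := List.all_eq_true.1 (List.all_eq_true.1 hT0d v hv) (asg W1 A) htrue
    rw [Bool.or_eq_true, Bool.not_eq_true'] at h1
    have h2 : agree T0 v (asg W1 A) = true := agree_iff.2 (fun a ha => by
      rw [gv_asg_mem (hQW1 a (hT0Q.2 a ha))]
      exact hva a ha)
    rw [h2] at h1
    rcases h1 with h1 | h1
    · exact absurd h1 (by simp)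
    · rw [beq_iff_eq, gv_asg_mem hxW1] at h1
      exact h1
  rw [Bool.eq_iff_iff, inD_iff, List.mem_filter, List.any_eq_true]
  constructor
  · intro hAx
    refine ⟨?_, asg W1 A, htrue, ?_⟩
    · rw [List.mem_append, mem_allB, mem_allB, List.length_map]
      exact hT0l
    · rw [hmapA, gv_asg_mem hxW1, hAx]
      simp
  · rintro ⟨-, v, hv1, hv⟩
    rw [Bool.and_eq_true, beq_iff_eq] at hv
    rw [← hdet0 v hv1 (fun a ha => List.map_inj_left.1 hv.2 a ha)]
    exact hv.1

/-- correctness of the algorithm -/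
theorem algA_spec (hk : 2 ≤ k) {A : Str → Bool}
    (H1 : ∀ t : List Str, t.length = 2 ^ k - 1 → ∃ ans, IsRun F1 A (tupS t) ans ∧
      ans.length ≤ k ∧ F1 (pairS (tupS t) ans) = true :: t.map A)
    (H2 : ∀ s : Str, s.length ≤ x.length → ∃ ans, IsRun F2 A s ans ∧ ans.length < R ∧
      F2 (pairS s ans) = [true, A s])
    (H3 : ∀ s : Str, ∀ ans q, IsRun F2 A s ans → F2 (pairS s ans) = false :: q →
      q.length < s.length) :
    algA F1 F2 k R x = A x := by
  have key : ∀ j : ℕ, ((stepA F1 F2 k R x)^[j] ([x], [[true]])).1.length ≤ 2 ^ k ∧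
      (∀ s ∈ ((stepA F1 F2 k R x)^[j] ([x], [[true]])).1, s.length + j ≤ x.length) ∧
      A x = inD ((stepA F1 F2 k R x)^[j] ([x], [[true]])).2
        (((stepA F1 F2 k R x)^[j] ([x], [[true]])).1.map A) := by
    intro j
    induction j with
    | zero =>
      refine ⟨by simpa using Nat.one_le_two_pow, by simp, ?_⟩
      rw [Bool.eq_iff_iff, inD_iff]
      simp
    | succ j ih =>
      rw [Function.iterate_succ_apply']
      obtain ⟨h1, h2, h3⟩ := ih
      have := step_spec (F1 := F1) (F2 := F2) (R := R) (x := x)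
        (S := ((stepA F1 F2 k R x)^[j] ([x], [[true]])).1)
        (D := ((stepA F1 F2 k R x)^[j] ([x], [[true]])).2) hk h1 H1
        (fun s hs => H2 s (by have := h2 s hs; omega)) (fun s _ => H3 s) h3
      obtain ⟨g1, g2, g3⟩ := this
      refine ⟨g1, ?_, g3⟩
      intro s hs
      obtain ⟨s', hs', hlt⟩ := g2 s hs
      have := h2 s' hs'
      omega
  obtain ⟨_, h2, h3⟩ := key (x.length + 1)
  have hnil : ((stepA F1 F2 k R x)^[x.length + 1] ([x], [[true]])).1 = [] := by
    rcases hl : ((stepA F1 F2 k R x)^[x.length + 1] ([x], [[true]])).1 with _ | ⟨s, l⟩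
    · rfl
    · exfalso
      have := h2 s (by rw [hl]; simp)
      omega
  rw [hnil] at h3
  rw [h3]
  rfl

end

end Pool.Agent.W2helper61.Cheat
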